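import Pool.Agent.X223.MuI.Sys

/-!
# Closure of systems under fixpoints, and the realisation of the formulas of the third level
-/

namespace Pool.Agent.X223.MuI

section loop

variable {S : Type} (d : Fin 3) (x : ℕ) (pr : S → Fin 3) (δ : S → Node S) (i : Node S)

/-- The node for the variables: the variable `x` leads to the new state. -/
def lvar (S : Type) (x : ℕ) (y : ℕ) : Node (Option S) := if y = x then .or none none else .var y

/-- Priorities of the looped system. -/
def lpr : Option S → Fin 3 := fun s => s.elim d pr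

/-- Transitions of the looped system. -/
def lδ : Option S → Node (Option S) := fun s => (s.elim i δ).bind some (lvar S x)

/-- The set of points at the new state. -/
def yp (Z : Set (Option S × Nd)) : Set Nd := {w | (none, w) ∈ Z}

/-- The part at the old states. -/
def sp (Z : Set (Option S × Nd)) : Set (S × Nd) := {q | (some q.1, q.2) ∈ Z}

theorem nev_loop (V : ℕ → Nd → Prop) (v : ℕ → Set Nd) (Z : Set (Option S × Nd)) (w : Nd)
    (n : Node S) : nev V v Z w (n.bind some (lvar S x)) ↔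
      nev V (Function.update v x (yp Z)) (sp Z) w n := by
  refine nev_bind some (lvar S x) V v (Function.update v x (yp Z)) Z w n ?_
  intro y
  unfold lvar
  by_cases h : y = x
  · subst h
    rw [if_pos rfl, Function.update_self]
    exact or_self_iff
  · rw [if_neg h, Function.update_of_ne h]
    exact Iff.rfl

/-- The operator of the looped system. -/
abbrev lop (V : ℕ → Nd → Prop) (v : ℕ → Set Nd) :
    Set (Option S × Nd) → Set (Option S × Nd) → Set (Option S × Nd) → Set (Option S × Nd) :=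
  op (lpr d pr) (lδ x δ i) V v

theorem sp_rd (X1 X2 X3 : Set (Option S × Nd)) :
    sp (rd (fun q : Option S × Nd => lpr d pr q.1) X1 X2 X3) =
      rd (fun q : S × Nd => pr q.1) (sp X1) (sp X2) (sp X3) := rfl

theorem sp_lop (V : ℕ → Nd → Prop) (v : ℕ → Set Nd) (X1 X2 X3 : Set (Option S × Nd)) :
    sp (lop d x pr δ i V v X1 X2 X3) =
      op pr δ V (Function.update v x
        (yp (rd (fun q : Option S × Nd => lpr d pr q.1) X1 X2 X3))) (sp X1) (sp X2) (sp X3) := by
  ext q
  exact nev_loop x V v (rd (fun q : Option S × Nd => lpr d pr q.1) X1 X2 X3) q.2 (δ q.1)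

theorem yp_lop (V : ℕ → Nd → Prop) (v : ℕ → Set Nd) (X1 X2 X3 : Set (Option S × Nd)) :
    yp (lop d x pr δ i V v X1 X2 X3) =
      {w | nev V (Function.update v x
        (yp (rd (fun q : Option S × Nd => lpr d pr q.1) X1 X2 X3)))
          (rd (fun q : S × Nd => pr q.1) (sp X1) (sp X2) (sp X3)) w i} := by
  ext w
  exact nev_loop x V v (rd (fun q : Option S × Nd => lpr d pr q.1) X1 X2 X3) w i

theorem yp_rd0 (X1 X2 X3 : Set (Option S × Nd)) :
    yp (rd (fun q : Option S × Nd => lpr 0 pr q.1) X1 X2 X3) = yp X1 := by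
  ext w
  change ((0 : Fin 3) = 0 ∧ _) ∨ ((0 : Fin 3) = 1 ∧ _) ∨ ((0 : Fin 3) = 2 ∧ _) ↔ _
  simp [yp]

theorem yp_rd1 (X1 X2 X3 : Set (Option S × Nd)) :
    yp (rd (fun q : Option S × Nd => lpr 1 pr q.1) X1 X2 X3) = yp X2 := by
  ext w
  change ((1 : Fin 3) = 0 ∧ _) ∨ ((1 : Fin 3) = 1 ∧ _) ∨ ((1 : Fin 3) = 2 ∧ _) ↔ _
  simp [yp]

theorem yp_rd2 (X1 X2 X3 : Set (Option S × Nd)) :
    yp (rd (fun q : Option S × Nd => lpr 2 pr q.1) X1 X2 X3) = yp X3 := by
  ext w
  change ((2 : Fin 3) = 0 ∧ _) ∨ ((2 : Fin 3) = 1 ∧ _) ∨ ((2 : Fin 3) = 2 ∧ _) ↔ _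
  simp [yp]

/-- The final value of the looped system. -/
theorem out_loop (V : ℕ → Nd → Prop) (v : ℕ → Set Nd) :
    out (lpr d pr) (lδ x δ i) (.or none none) V v = yp (lev3 (lop d x pr δ i V v)) := by
  ext w
  exact or_self_iff

theorem out_update (V : ℕ → Nd → Prop) (v : ℕ → Set Nd) (Y : Set Nd) :
    out pr δ i V (Function.update v x Y) =
      {w | nev V (Function.update v x Y) (lev3 (op pr δ V (Function.update v x Y))) w i} := rfl

theorem update_mono {v : ℕ → Set Nd} {Y Y' : Set Nd} (h : Y ⊆ Y') (y : ℕ) :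
    Function.update v x Y y ⊆ Function.update v x Y' y := by
  by_cases hy : y = x
  · subst hy
    simpa using h
  · simp [Function.update_of_ne hy]

theorem op_mono_v {V : ℕ → Nd → Prop} {v v' : ℕ → Set Nd} (hv : ∀ y, v y ⊆ v' y)
    (X1 X2 X3 : Set (S × Nd)) : op pr δ V v X1 X2 X3 ⊆ op pr δ V v' X1 X2 X3 :=
  fun _ hq => nev_mono hv Set.Subset.rfl hq

theorem sol_mono_v {V : ℕ → Nd → Prop} {v v' : ℕ → Set Nd} (hv : ∀ y, v y ⊆ v' y) :
    sol pr δ V v ⊆ sol pr δ V v' :=
  lfpS_mono fun X3 => gfpS_mono fun X2 => lfpS_mono fun X1 => op_mono_v pr δ hv X1 X2 X3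

theorem out_mono_v {V : ℕ → Nd → Prop} {v v' : ℕ → Set Nd} (hv : ∀ y, v y ⊆ v' y) :
    out pr δ i V v ⊆ out pr δ i V v' :=
  fun _ hw => nev_mono hv (sol_mono_v pr δ hv) hw

/-- **Loop of priority 2**: a least fixpoint. -/
theorem loop2 (V : ℕ → Nd → Prop) (v : ℕ → Set Nd) :
    out (lpr 2 pr) (lδ x δ i) (.or none none) V v =
      lfpS fun Y => out pr δ i V (Function.update v x Y) := by
  rw [out_loop]
  set F := lop 2 x pr δ i V v with hF
  have hFm : Mon3 F := op_mono _ _ V v
  have hfm : Mon fun Y => out pr δ i V (Function.update v x Y) :=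
    fun Y Y' h => out_mono_v pr δ i (update_mono x h)
  have hs : ∀ X3, sp (lev2 F X3) = lev2 (op pr δ V (Function.update v x (yp X3))) (sp X3) := by
    intro X3
    refine preimage_lev2 hFm (op_mono _ _ V _) (fun q : S × Nd => (some q.1, q.2)) X3 (sp X3) ?_
    intro X1 X2
    have h := sp_lop 2 x pr δ i V v X1 X2 X3
    rw [yp_rd2] at h
    exact h
  have hy : ∀ X3, yp (lev2 F X3) = {w | nev V (Function.update v x (yp X3))
      (rd (fun q : S × Nd => pr q.1) (sp (lev2 F X3)) (sp (lev2 F X3)) (sp X3)) w i} := by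
    intro X3
    have h := yp_lop 2 x pr δ i V v (lev2 F X3) (lev2 F X3) X3
    rw [yp_rd2] at h
    rw [← h]
    congr 1
    exact (lev2_eq' hFm X3).symm
  apply Set.Subset.antisymm
  · -- the pair of solutions is a pre-fixpoint
    set Y0 := lfpS fun Y => out pr δ i V (Function.update v x Y) with hY0
    set A0 := sol pr δ V (Function.update v x Y0) with hA0
    set Z0 : Set (Option S × Nd) := {q | (∃ s, q.1 = some s ∧ (s, q.2) ∈ A0) ∨
      (q.1 = none ∧ q.2 ∈ Y0)} with hZ0
    have hspZ : sp Z0 = A0 := by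
      ext ⟨s, w⟩
      constructor
      · rintro (⟨s', h1, h2⟩ | ⟨h1, _⟩)
        · cases h1
          exact h2
        · cases h1
      · intro h
        exact Or.inl ⟨s, rfl, h⟩
    have hypZ : yp Z0 = Y0 := by
      ext w
      constructor
      · rintro (⟨s', h1, h2⟩ | ⟨_, h1⟩)
        · cases h1
        · exact h1
      · intro h
        exact Or.inr ⟨rfl, h⟩
    have h1 : sp (lev2 F Z0) = A0 := by
      rw [hs, hspZ, hypZ]
      exact lev3_eq (op_mono pr δ V _)
    have h2 : yp (lev2 F Z0) = Y0 := by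
      rw [hy, h1, hspZ, hypZ, rd_self]
      exact lfpS_eq hfm
    have h3 : lev2 F Z0 ⊆ Z0 := by
      rintro ⟨s, w⟩ hq
      cases s with
      | none =>
        have : w ∈ yp (lev2 F Z0) := hq
        rw [h2] at this
        exact Or.inr ⟨rfl, this⟩
      | some s =>
        have : (s, w) ∈ sp (lev2 F Z0) := hq
        rw [h1] at this
        exact Or.inl ⟨s, rfl, this⟩
    intro w hw
    have h4 : (none, w) ∈ Z0 := lfpS_le h3 hw
    have h5 : w ∈ yp Z0 := h4
    rwa [hypZ] at h5
  · apply lfpS_le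
    set m := lev3 F with hm
    have e1 : lev2 F m = m := lev3_eq hFm
    have e2 : sol pr δ V (Function.update v x (yp m)) ⊆ sp m := by
      apply lfpS_le
      rw [← hs m, e1]
    intro w hw
    have h := hy m
    rw [e1, rd_self] at h
    rw [h]
    exact nev_mono (fun _ => Set.Subset.rfl) e2 hw

/-- **Loop of priority 1**: a greatest fixpoint, if there is no priority 2. -/
theorem loop1 (hpr : ∀ s, pr s ≠ 2) (V : ℕ → Nd → Prop) (v : ℕ → Set Nd) :
    out (lpr 1 pr) (lδ x δ i) (.or none none) V v =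
      gfpS fun Y => out pr δ i V (Function.update v x Y) := by
  rw [out_loop]
  set F := lop 1 x pr δ i V v with hF
  have hFm : Mon3 F := op_mono _ _ V v
  have hfm : Mon fun Y => out pr δ i V (Function.update v x Y) :=
    fun Y Y' h => out_mono_v pr δ i (update_mono x h)
  -- no dependence on the third variable
  have hind : ∀ {α : Type} (pr : α → Fin 3), (∀ s, pr s ≠ 2) → ∀ (X1 X2 X3 X3' : Set α),
      rd pr X1 X2 X3 = rd pr X1 X2 X3' := by
    intro α pr hpr X1 X2 X3 X3'
    ext q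
    have := hpr q
    simp only [rd, Set.mem_ofPred_eq]
    tauto
  have hlpr : ∀ s, lpr 1 pr s ≠ 2 := by
    intro s
    cases s with
    | none => change (1 : Fin 3) ≠ 2; decide
    | some s => exact hpr s
  have hF3 : ∀ X1 X2 X3 X3', F X1 X2 X3 = F X1 X2 X3' := by
    intro X1 X2 X3 X3'
    simp only [hF, lop, op]
    rw [hind (fun q : Option S × Nd => lpr 1 pr q.1) (fun q => hlpr q.1) X1 X2 X3 X3']
  have hG3 : ∀ (v : ℕ → Set Nd) X1 X2 X3 X3', op pr δ V v X1 X2 X3 = op pr δ V v X1 X2 X3' := by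
    intro v X1 X2 X3 X3'
    simp only [op]
    rw [hind (fun q : S × Nd => pr q.1) (fun q => hpr q.1) X1 X2 X3 X3']
  have hl3 : lev3 F = lev2 F ∅ := by
    have : lev2 F = fun _ => lev2 F ∅ := by
      funext X3
      simp only [lev2, lev1]
      congr 1
      funext X2
      congr 1
      funext X1
      exact hF3 _ _ _ _
    unfold lev3
    rw [this]
    exact lfpS_const _
  have hg3 : ∀ v : ℕ → Set Nd, lev3 (op pr δ V v) = lev2 (op pr δ V v) ∅ := by
    intro v
    have : lev2 (op pr δ V v) = fun _ => lev2 (op pr δ V v) ∅ := by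
      funext X3
      simp only [lev2, lev1]
      congr 1
      funext X2
      congr 1
      funext X1
      exact hG3 _ _ _ _ _
    unfold lev3
    rw [this]
    exact lfpS_const _
  rw [hl3]
  have hs : ∀ X2, sp (lev1 F X2 ∅) =
      lev1 (op pr δ V (Function.update v x (yp X2))) (sp X2) ∅ := by
    intro X2
    refine preimage_lev1 hFm (op_mono _ _ V _) (fun q : S × Nd => (some q.1, q.2)) X2 ∅
      (sp X2) ∅ ?_
    intro X1
    have h := sp_lop 1 x pr δ i V v X1 X2 ∅
    rw [yp_rd1] at h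
    exact h
  have hy : ∀ X2, yp (lev1 F X2 ∅) = {w | nev V (Function.update v x (yp X2))
      (rd (fun q : S × Nd => pr q.1) (sp (lev1 F X2 ∅)) (sp X2) (sp ∅)) w i} := by
    intro X2
    have h := yp_lop 1 x pr δ i V v (lev1 F X2 ∅) X2 ∅
    rw [yp_rd1] at h
    rw [← h]
    congr 1
    exact (lev1_eq hFm X2 ∅).symm
  have hrdind : ∀ X1 X2 X3 X3' : Set (S × Nd), rd (fun q : S × Nd => pr q.1) X1 X2 X3 =
      rd (fun q : S × Nd => pr q.1) X1 X2 X3' := fun X1 X2 X3 X3' =>
    hind (fun q : S × Nd => pr q.1) (fun q => hpr q.1) X1 X2 X3 X3'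
  apply Set.Subset.antisymm
  · apply le_gfpS
    set m := lev2 F ∅ with hm
    have e1 : lev1 F m ∅ = m := lev2_eq hFm ∅
    have e2 : sp m ⊆ sol pr δ V (Function.update v x (yp m)) := by
      unfold sol
      rw [hg3]
      apply le_gfpS
      rw [← hs m, e1]
    intro w hw
    have h := hy m
    rw [e1, hrdind _ _ _ (sp m), rd_self] at h
    rw [h] at hw
    exact nev_mono (fun _ => Set.Subset.rfl) e2 hw
  · set Y0 := gfpS fun Y => out pr δ i V (Function.update v x Y) with hY0
    set A0 := sol pr δ V (Function.update v x Y0) with hA0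
    have hA0' : A0 = lev2 (op pr δ V (Function.update v x Y0)) ∅ := hg3 _
    set Z0 : Set (Option S × Nd) := {q | (∃ s, q.1 = some s ∧ (s, q.2) ∈ A0) ∨
      (q.1 = none ∧ q.2 ∈ Y0)} with hZ0
    have hspZ : sp Z0 = A0 := by
      ext ⟨s, w⟩
      constructor
      · rintro (⟨s', h1, h2⟩ | ⟨h1, _⟩)
        · cases h1
          exact h2
        · cases h1
      · intro h
        exact Or.inl ⟨s, rfl, h⟩
    have hypZ : yp Z0 = Y0 := by
      ext w
      constructor
      · rintro (⟨s', h1, h2⟩ | ⟨_, h1⟩)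
        · cases h1
        · exact h1
      · intro h
        exact Or.inr ⟨rfl, h⟩
    have h1 : sp (lev1 F Z0 ∅) = A0 := by
      rw [hs, hspZ, hypZ, hA0']
      exact lev2_eq (op_mono pr δ V _) ∅
    have h2 : yp (lev1 F Z0 ∅) = Y0 := by
      rw [hy, h1, hspZ, hypZ, hrdind _ _ _ A0, rd_self]
      exact gfpS_eq hfm
    have h3 : Z0 ⊆ lev1 F Z0 ∅ := by
      rintro ⟨s, w⟩ hq
      cases s with
      | none =>
        have : w ∈ yp Z0 := hq
        rw [hypZ, ← h2] at this
        exact this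
      | some s =>
        have : (s, w) ∈ sp Z0 := hq
        rw [hspZ, ← h1] at this
        exact this
    intro w hw
    have h4 : (none, w) ∈ Z0 := Or.inr ⟨rfl, hw⟩
    exact le_gfpS h3 h4

/-- **Loop of priority 0**: a least fixpoint, if there is only the priority 0. -/
theorem loop0 (hpr : ∀ s, pr s = 0) (V : ℕ → Nd → Prop) (v : ℕ → Set Nd) :
    out (lpr 0 pr) (lδ x δ i) (.or none none) V v =
      lfpS fun Y => out pr δ i V (Function.update v x Y) := by
  rw [out_loop]
  set F := lop 0 x pr δ i V v with hF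
  have hFm : Mon3 F := op_mono _ _ V v
  have hfm : Mon fun Y => out pr δ i V (Function.update v x Y) :=
    fun Y Y' h => out_mono_v pr δ i (update_mono x h)
  have hind : ∀ {α : Type} (pr : α → Fin 3), (∀ s, pr s = 0) → ∀ (X1 X2 X3 : Set α),
      rd pr X1 X2 X3 = X1 := by
    intro α pr hpr X1 X2 X3
    ext q
    have := hpr q
    simp only [rd, Set.mem_ofPred_eq]
    simp [this]
  have hlpr : ∀ s, lpr 0 pr s = 0 := by
    intro s
    cases s with
    | none => rfl
    | some s => exact hpr s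
  have hF3 : ∀ X1 X2 X3, F X1 X2 X3 = F X1 ∅ ∅ := by
    intro X1 X2 X3
    simp only [hF, lop, op]
    rw [hind (fun q : Option S × Nd => lpr 0 pr q.1) (fun q => hlpr q.1) X1 X2 X3,
      hind (fun q : Option S × Nd => lpr 0 pr q.1) (fun q => hlpr q.1) X1 ∅ ∅]
  have hG3 : ∀ (v : ℕ → Set Nd) X1 X2 X3, op pr δ V v X1 X2 X3 = op pr δ V v X1 ∅ ∅ := by
    intro v X1 X2 X3
    simp only [op]
    rw [hind (fun q : S × Nd => pr q.1) (fun q => hpr q.1) X1 X2 X3,
      hind (fun q : S × Nd => pr q.1) (fun q => hpr q.1) X1 ∅ ∅]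
  have hcol : ∀ {α : Type} (G : Set α → Set α → Set α → Set α),
      (∀ X1 X2 X3, G X1 X2 X3 = G X1 ∅ ∅) → lev3 G = lev1 G ∅ ∅ := by
    intro α G hG
    have h1 : ∀ X2 X3, lev1 G X2 X3 = lev1 G ∅ ∅ := by
      intro X2 X3
      simp only [lev1]
      congr 1
      funext X1
      exact hG _ _ _
    have h2 : ∀ X3, lev2 G X3 = lev1 G ∅ ∅ := by
      intro X3
      unfold lev2
      simp only [h1]
      exact gfpS_const _
    unfold lev3
    simp only [h2]
    exact lfpS_const _
  rw [hcol F hF3]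
  set G : ℕ → Set (S × Nd) := fun _ => ∅
  have hmS : Mon fun X => F X ∅ ∅ := hFm.m1 _ _
  set m := lev1 F ∅ ∅ with hm
  have e1 : F m ∅ ∅ = m := lev1_eq hFm ∅ ∅
  have hsol : ∀ v : ℕ → Set Nd, sol pr δ V v = lfpS fun X => op pr δ V v X ∅ ∅ :=
    fun v => hcol _ (hG3 v)
  have hsF : ∀ X, sp (F X ∅ ∅) = op pr δ V (Function.update v x (yp X)) (sp X) ∅ ∅ := by
    intro X
    have h := sp_lop 0 x pr δ i V v X ∅ ∅
    rw [yp_rd0] at h
    exact h
  have hyF : ∀ X, yp (F X ∅ ∅) = {w | nev V (Function.update v x (yp X)) (sp X) w i} := by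
    intro X
    have h := yp_lop 0 x pr δ i V v X ∅ ∅
    rw [yp_rd0, hind (fun q : S × Nd => pr q.1) (fun q => hpr q.1)] at h
    exact h
  apply Set.Subset.antisymm
  · set Y0 := lfpS fun Y => out pr δ i V (Function.update v x Y) with hY0
    set A0 := sol pr δ V (Function.update v x Y0) with hA0
    set Z0 : Set (Option S × Nd) := {q | (∃ s, q.1 = some s ∧ (s, q.2) ∈ A0) ∨
      (q.1 = none ∧ q.2 ∈ Y0)} with hZ0
    have hspZ : sp Z0 = A0 := by
      ext ⟨s, w⟩
      constructor
      · rintro (⟨s', h1, h2⟩ | ⟨h1, _⟩)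
        · cases h1
          exact h2
        · cases h1
      · intro h
        exact Or.inl ⟨s, rfl, h⟩
    have hypZ : yp Z0 = Y0 := by
      ext w
      constructor
      · rintro (⟨s', h1, h2⟩ | ⟨_, h1⟩)
        · cases h1
        · exact h1
      · intro h
        exact Or.inr ⟨rfl, h⟩
    have hAeq : op pr δ V (Function.update v x Y0) A0 ∅ ∅ = A0 := by
      have h := lfpS_eq (f := fun X => op pr δ V (Function.update v x Y0) X ∅ ∅)
        ((op_mono pr δ V _).m1 ∅ ∅)
      rw [← hsol] at h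
      exact h
    have h1 : sp (F Z0 ∅ ∅) = A0 := by
      rw [hsF, hspZ, hypZ, hAeq]
    have h2 : yp (F Z0 ∅ ∅) = Y0 := by
      rw [hyF, hspZ, hypZ]
      exact lfpS_eq hfm
    have h3 : F Z0 ∅ ∅ ⊆ Z0 := by
      rintro ⟨s, w⟩ hq
      cases s with
      | none =>
        have : w ∈ yp (F Z0 ∅ ∅) := hq
        rw [h2] at this
        exact Or.inr ⟨rfl, this⟩
      | some s =>
        have : (s, w) ∈ sp (F Z0 ∅ ∅) := hq
        rw [h1] at this
        exact Or.inl ⟨s, rfl, this⟩
    intro w hw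
    have h4 : (none, w) ∈ Z0 := lfpS_le h3 hw
    have h5 : w ∈ yp Z0 := h4
    rwa [hypZ] at h5
  · apply lfpS_le
    have e2 : sol pr δ V (Function.update v x (yp m)) ⊆ sp m := by
      rw [hsol]
      apply lfpS_le
      rw [← hsF m, e1]
    intro w hw
    have h := hyF m
    rw [e1] at h
    rw [h]
    exact nev_mono (fun _ => Set.Subset.rfl) e2 hw

end loop

end Pool.Agent.X223.MuI
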