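import Mathlib

/-!
# The modal mu-calculus and its alternation hierarchy (named syntax)
-/

namespace Pool.Agent.X223.MuI

universe u

/-- Formulas of the modal mu-calculus in negation normal form. Propositional letters and fixpoint
variables are numbered; a fixpoint variable has no negation, so that it occurs only positively. -/
inductive Fml : Type
  /-- truth -/
  | tt : Fml
  /-- falsity -/
  | ff : Fml
  /-- a propositional letter -/
  | lit (p : ℕ) : Fml
  /-- a negated propositional letter -/
  | nlit (p : ℕ) : Fml
  /-- a fixpoint variable -/
  | var (x : ℕ) : Fml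
  /-- conjunction -/
  | and (a b : Fml) : Fml
  /-- disjunction -/
  | or (a b : Fml) : Fml
  /-- possibility -/
  | dia (a : Fml) : Fml
  /-- necessity -/
  | box (a : Fml) : Fml
  /-- least fixpoint -/
  | mu (x : ℕ) (a : Fml) : Fml
  /-- greatest fixpoint -/
  | nu (x : ℕ) (a : Fml) : Fml

/-- A Kripke model: an accessibility relation and an interpretation of the letters. -/
structure Model (W : Type u) where
  /-- the accessibility relation -/
  acc : W → W → Prop
  /-- the truth of the letters -/
  val : ℕ → W → Prop

/-- The least (pre-)fixpoint of an operator on sets. -/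
def lfpS {α : Type u} (f : Set α → Set α) : Set α := ⋂₀ {X | f X ⊆ X}

/-- The greatest (post-)fixpoint of an operator on sets. -/
def gfpS {α : Type u} (f : Set α → Set α) : Set α := ⋃₀ {X | X ⊆ f X}

/-- The truth set of a formula in a Kripke model, for given values of the fixpoint variables. -/
def eval {W : Type u} (M : Model W) : Fml → (ℕ → Set W) → Set W
  | .tt, _ => Set.univ
  | .ff, _ => ∅
  | .lit p, _ => {w | M.val p w}
  | .nlit p, _ => {w | ¬ M.val p w}
  | .var x, v => v x
  | .and a b, v => eval M a v ∩ eval M b v
  | .or a b, v => eval M a v ∪ eval M b v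
  | .dia a, v => {w | ∃ w', M.acc w w' ∧ w' ∈ eval M a v}
  | .box a, v => {w | ∀ w', M.acc w w' → w' ∈ eval M a v}
  | .mu x a, v => lfpS fun X => eval M a (Function.update v x X)
  | .nu x a, v => gfpS fun X => eval M a (Function.update v x X)

/-- The variable `x` occurs free in the formula. -/
def Free (x : ℕ) : Fml → Prop
  | .tt => False
  | .ff => False
  | .lit _ => False
  | .nlit _ => False
  | .var y => y = x
  | .and a b => Free x a ∨ Free x b
  | .or a b => Free x a ∨ Free x b
  | .dia a => Free x a
  | .box a => Free x a
  | .mu y a => y ≠ x ∧ Free x a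
  | .nu y a => y ≠ x ∧ Free x a

/-- The result of replacing the free occurrences of the variable `x` by the formula `s`. -/
def subst (x : ℕ) (s : Fml) : Fml → Fml
  | .tt => .tt
  | .ff => .ff
  | .lit p => .lit p
  | .nlit p => .nlit p
  | .var y => if y = x then s else .var y
  | .and a b => .and (subst x s a) (subst x s b)
  | .or a b => .or (subst x s a) (subst x s b)
  | .dia a => .dia (subst x s a)
  | .box a => .box (subst x s a)
  | .mu y a => if y = x then .mu y a else .mu y (subst x s a)
  | .nu y a => if y = x then .nu y a else .nu y (subst x s a)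

/-- No variable capture: no free occurrence of `x` lies in the scope of a fixpoint operator which
binds a free variable of `s`. -/
def NoCapture (x : ℕ) (s : Fml) : Fml → Prop
  | .tt => True
  | .ff => True
  | .lit _ => True
  | .nlit _ => True
  | .var _ => True
  | .and a b => NoCapture x s a ∧ NoCapture x s b
  | .or a b => NoCapture x s a ∧ NoCapture x s b
  | .dia a => NoCapture x s a
  | .box a => NoCapture x s a
  | .mu y a => y = x ∨ ¬ Free x a ∨ (¬ Free y s ∧ NoCapture x s a)
  | .nu y a => y = x ∨ ¬ Free x a ∨ (¬ Free y s ∧ NoCapture x s a)

/-- The formula contains no fixpoint operator. -/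
def FixFree : Fml → Prop
  | .tt => True
  | .ff => True
  | .lit _ => True
  | .nlit _ => True
  | .var _ => True
  | .and a b => FixFree a ∧ FixFree b
  | .or a b => FixFree a ∧ FixFree b
  | .dia a => FixFree a
  | .box a => FixFree a
  | .mu _ _ => False
  | .nu _ _ => False

/-- The least set of formulas which contains `B` and is closed under conjunction, disjunction, the
modalities, one kind of fixpoint operator (`μ` for `true` and `ν` for `false`) and substitution
without variable capture. -/
inductive Clo (B : Fml → Prop) : Bool → Fml → Prop
  | base (m : Bool) (a : Fml) : B a → Clo B m a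
  | and (m : Bool) (a b : Fml) : Clo B m a → Clo B m b → Clo B m (.and a b)
  | or (m : Bool) (a b : Fml) : Clo B m a → Clo B m b → Clo B m (.or a b)
  | dia (m : Bool) (a : Fml) : Clo B m a → Clo B m (.dia a)
  | box (m : Bool) (a : Fml) : Clo B m a → Clo B m (.box a)
  | mu (x : ℕ) (a : Fml) : Clo B true a → Clo B true (.mu x a)
  | nu (x : ℕ) (a : Fml) : Clo B false a → Clo B false (.nu x a)
  | subst (m : Bool) (x : ℕ) (a s : Fml) : Clo B m a → Clo B m s → NoCapture x s a →
      Clo B m (subst x s a)

/-- The levels of the alternation hierarchy: `Level n true` is `Σ_n` and `Level n false` is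
`Π_n`. -/
def Level : ℕ → Bool → Fml → Prop
  | 0, _, a => FixFree a
  | n + 1, m, a => Clo (fun b => Level n true b ∨ Level n false b) m a

/-- The propositional letter `p` occurs in the formula. -/
def Occurs (p : ℕ) : Fml → Prop
  | .tt => False
  | .ff => False
  | .lit q => q = p
  | .nlit q => q = p
  | .var _ => False
  | .and a b => Occurs p a ∨ Occurs p b
  | .or a b => Occurs p a ∨ Occurs p b
  | .dia a => Occurs p a
  | .box a => Occurs p a
  | .mu _ a => Occurs p a
  | .nu _ a => Occurs p a

/-- The implication `a → b` is valid: it holds at every point of every Kripke model, for all values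
of the free fixpoint variables. -/
def ValidImp (a b : Fml) : Prop :=
  ∀ (W : Type u) (M : Model W) (v : ℕ → Set W), eval M a v ⊆ eval M b v

/-- Craig interpolation for a set of formulas. -/
def Craig (F : Fml → Prop) : Prop :=
  ∀ a b : Fml, F a → F b → ValidImp.{u} a b →
    ∃ c : Fml, F c ∧ (∀ p, Occurs p c → Occurs p a ∧ Occurs p b) ∧ ValidImp.{u} a c ∧
      ValidImp.{u} c b

end Pool.Agent.X223.MuI
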