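import Pool.Agent.X223.MuI.Diag

/-!
# The formulas, and the winning markings on the tree
-/

namespace Pool.Agent.X223.MuI

universe u

/-! ### The formulas -/

/-- Local condition for the marking `4`. -/
def locQ : Fml :=
  .or (.and (.lit 3) (.lit 0)) (.and (.nlit 3)
    (.or (.and (.lit 0) (.dia (.lit 4))) (.and (.nlit 0) (.box (.lit 4)))))

/-- Not infinitely often priority `1` and finitely often priority `2`, on all marked paths. -/
def gQ : Fml :=
  .mu 1 (.nu 2 (.box (.or (.nlit 4) (.or (.lit 2) (.or (.and (.lit 1) (.var 1))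
    (.and (.nlit 1) (.var 2)))))))

/-- The first formula. -/
def fA : Fml :=
  .and (.lit 4) (.nu 0 (.and (.and locQ gQ) (.box (.or (.nlit 4) (.var 0)))))

/-- Local condition for the marking `5`. -/
def locR : Fml :=
  .or (.and (.lit 3) (.nlit 0)) (.and (.nlit 3)
    (.or (.and (.lit 0) (.box (.lit 5))) (.and (.nlit 0) (.dia (.lit 5)))))

/-- Finitely often priority `2` on all marked paths. -/
def gR : Fml :=
  .mu 1 (.nu 2 (.box (.or (.nlit 5) (.or (.and (.lit 2) (.var 1)) (.and (.nlit 2) (.var 2))))))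

/-- No marked path has only priority `0`. -/
def hR : Fml :=
  .mu 1 (.box (.or (.nlit 5) (.or (.lit 2) (.or (.lit 1) (.var 1)))))

/-- The negation of the second formula. -/
def fC : Fml :=
  .and (.lit 5) (.nu 0 (.and (.and locR (.and gR hR)) (.box (.or (.nlit 5) (.var 0)))))

/-- The dual formula. -/
def neg : Fml → Fml
  | .tt => .ff
  | .ff => .tt
  | .lit p => .nlit p
  | .nlit p => .lit p
  | .var x => .var x
  | .and a b => .or (neg a) (neg b)
  | .or a b => .and (neg a) (neg b)
  | .dia a => .box (neg a)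
  | .box a => .dia (neg a)
  | .mu x a => .nu x (neg a)
  | .nu x a => .mu x (neg a)

theorem eval_neg {W : Type u} (M : Model W) (a : Fml) :
    ∀ v : ℕ → Set W, eval M (neg a) v = (eval M a fun x => (v x)ᶜ)ᶜ := by
  have hup : ∀ (v : ℕ → Set W) (x : ℕ) (X : Set W),
      (fun y => (Function.update v x X y)ᶜ) = Function.update (fun y => (v y)ᶜ) x Xᶜ := by
    intro v x X
    funext y
    by_cases h : y = x
    · subst h; simp
    · rw [Function.update_of_ne h, Function.update_of_ne h]
  induction a with
  | tt => intro v; simp [neg, eval]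
  | ff => intro v; simp [neg, eval]
  | lit p => intro v; rfl
  | nlit p => intro v; ext w; simp [neg, eval]
  | var x => intro v; simp [neg, eval]
  | and a b iha ihb => intro v; simp only [neg, eval]; rw [iha, ihb, Set.compl_inter]
  | or a b iha ihb => intro v; simp only [neg, eval]; rw [iha, ihb, Set.compl_union]
  | dia a iha =>
    intro v
    simp only [neg, eval]
    rw [iha]
    ext w
    simp
  | box a iha =>
    intro v
    simp only [neg, eval]
    rw [iha]
    ext w
    simp
  | mu x a iha =>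
    intro v
    simp only [neg, eval]
    rw [compl_lfpS]
    congr 1
    funext X
    rw [iha, hup]
  | nu x a iha =>
    intro v
    simp only [neg, eval]
    rw [compl_gfpS]
    congr 1
    funext X
    rw [iha, hup]

/-- The second formula. -/
def fB : Fml := neg fC

/-! ### Reading off the formulas -/

theorem mem_fA {W : Type u} (M : Model W) (v : ℕ → Set W) (w : W) (h4 : M.val 4 w)
    (X : Set W) (hw : w ∈ X) (hloc : ∀ u ∈ X, u ∈ eval M locQ v) (hg : ∀ u ∈ X, u ∈ eval M gQ v)
    (hX : ∀ u ∈ X, ∀ u', M.acc u u' → M.val 4 u' → u' ∈ X) : w ∈ eval M fA v := by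
  refine ⟨h4, ?_⟩
  refine ⟨X, ?_, hw⟩
  intro u hu
  refine ⟨⟨?_, ?_⟩, ?_⟩
  · exact hloc u hu
  · have : eval M gQ (Function.update v 0 X) = eval M gQ v := by
      apply eval_congr
      intro x hx
      simp [gQ, Free] at hx
      omega
    rw [this]
    exact hg u hu
  · intro u' hu'
    by_cases h : M.val 4 u'
    · right
      have := hX u hu u' hu' h
      simpa [eval] using this
    · left
      exact h

theorem mem_fC {W : Type u} (M : Model W) (v : ℕ → Set W) (w : W) (h5 : M.val 5 w)
    (X : Set W) (hw : w ∈ X) (hloc : ∀ u ∈ X, u ∈ eval M locR v) (hg : ∀ u ∈ X, u ∈ eval M gR v)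
    (hh : ∀ u ∈ X, u ∈ eval M hR v)
    (hX : ∀ u ∈ X, ∀ u', M.acc u u' → M.val 5 u' → u' ∈ X) : w ∈ eval M fC v := by
  refine ⟨h5, ?_⟩
  refine ⟨X, ?_, hw⟩
  intro u hu
  refine ⟨⟨?_, ?_, ?_⟩, ?_⟩
  · exact hloc u hu
  · have : eval M gR (Function.update v 0 X) = eval M gR v := by
      apply eval_congr
      intro x hx
      simp [gR, Free] at hx
      omega
    rw [this]
    exact hg u hu
  · have : eval M hR (Function.update v 0 X) = eval M hR v := by
      apply eval_congr
      intro x hx
      simp [hR, Free] at hx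
    rw [this]
    exact hh u hu
  · intro u' hu'
    by_cases h : M.val 5 u'
    · right
      have := hX u hu u' hu' h
      simpa [eval] using this
    · left
      exact h

/-! ### Markings on the tree -/

/-- The labelling with an additional letter. -/
def addL (V : ℕ → Nd → Prop) (p : ℕ) (Q : Nd → Prop) : ℕ → Nd → Prop := Function.update V p Q

/-- The marking generated by a choice of edges. -/
def mark (T : Nd → Prop) (ch : Nd → Nd → Prop) : Nd → Prop
  | [] => True
  | b :: u => mark T ch u ∧ ¬ T u ∧ ch u (b :: u)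

theorem prT_zero {V : ℕ → Nd → Prop} {u : Nd} (h2 : ¬ V 2 u) (h1 : ¬ V 1 u) : prT V u = 0 := by
  simp [prT, h1, h2]

theorem prT_one {V : ℕ → Nd → Prop} {u : Nd} (h2 : ¬ V 2 u) (h1 : V 1 u) : prT V u = 1 := by
  simp [prT, h1, h2]

theorem prT_two {V : ℕ → Nd → Prop} {u : Nd} (h2 : V 2 u) : prT V u = 2 := by
  simp [prT, h2]

theorem mem_rd {α : Type*} {pr : α → Fin 3} {X1 X2 X3 : Set α} {q : α} (h : q ∈ rd pr X1 X2 X3) :
    (pr q = 0 → q ∈ X1) ∧ (pr q = 1 → q ∈ X2) ∧ (pr q = 2 → q ∈ X3) := by
  rcases h with ⟨h, hq⟩ | ⟨h, hq⟩ | ⟨h, hq⟩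
  · rw [h]
    exact ⟨fun _ => hq, fun h => absurd h (by decide), fun h => absurd h (by decide)⟩
  · rw [h]
    exact ⟨fun h => absurd h (by decide), fun _ => hq, fun h => absurd h (by decide)⟩
  · rw [h]
    exact ⟨fun h => absurd h (by decide), fun h => absurd h (by decide), fun _ => hq⟩

theorem not_mem_rd {α : Type*} {pr : α → Fin 3} {X1 X2 X3 : Set α} {q : α}
    (h : q ∉ rd pr X1 X2 X3) :
    (pr q = 0 → q ∉ X1) ∧ (pr q = 1 → q ∉ X2) ∧ (pr q = 2 → q ∉ X3) := by
  refine ⟨fun h0 hq => h (Or.inl ⟨h0, hq⟩), fun h0 hq => h (Or.inr (Or.inl ⟨h0, hq⟩)),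
    fun h0 hq => h (Or.inr (Or.inr ⟨h0, hq⟩))⟩

/-- **The marking when the root is not in the fixpoint.** -/
theorem exists_markA (V : ℕ → Nd → Prop) (v : ℕ → Set Nd)
    (hroot : ([] : Nd) ∉ lev3 (treeOp V)) :
    ∃ Q : Nd → Prop, ([] : Nd) ∈ eval (treeM (addL V 4 Q)) fA v := by
  classical
  set F := treeOp V with hF
  have hFm : Mon3 F := treeOp_mono V
  set m := lev3 F with hm
  set k : Set Nd → Set Nd := fun Y => (lev1 F Yᶜ m)ᶜ with hk
  have hkm : Mon k := by
    intro X Y h
    exact Set.compl_subset_compl.2 (lev1_mono hFm (Set.compl_subset_compl.2 h) Set.Subset.rfl)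
  have hW : mᶜ = lfpS k := by
    have h1 : m = gfpS fun X2 => lev1 F X2 m := (lev3_eq hFm).symm
    conv_lhs => rw [h1]
    rw [compl_gfpS]
  set r := rk k with hr
  -- the chosen edges
  set ch : Nd → Nd → Prop := fun u u' => u' ∈ mᶜ ∧ (prT V u' = 0 → r u' ≤ r u) ∧
    (prT V u' = 1 → r u' < r u) with hch
  have hstep : ∀ u ∈ mᶜ, (V 3 u ∧ V 0 u) ∨ (¬ V 3 u ∧
      ((V 0 u ∧ ∃ b : Bool, ch u (b :: u)) ∨ (¬ V 0 u ∧ ∀ b : Bool, ch u (b :: u)))) := by
    intro u hu
    have hu' : u ∈ lfpS k := hW ▸ hu
    set Y := {b | b ∈ lfpS k ∧ r b < r u} with hY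
    have h1 : u ∈ k Y := rk_spec hkm hu'
    set N := lev1 F Yᶜ m with hN
    have h2 : F N Yᶜ m = N := lev1_eq hFm _ _
    have h3 : u ∉ F N Yᶜ m := by
      rw [h2]
      exact h1
    have hedge : ∀ b : Bool, b :: u ∉ rd (prT V) N Yᶜ m → ch u (b :: u) := by
      intro b hb
      have h4 := not_mem_rd hb
      have h5 : b :: u ∈ mᶜ := by
        have hcase : prT V (b :: u) = 0 ∨ prT V (b :: u) = 1 ∨ prT V (b :: u) = 2 := by
          generalize prT V (b :: u) = k
          revert k
          decide
        rcases hcase with h | h | h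
        · have h6 : b :: u ∈ k Y := h4.1 h
          have h7 : k Y ⊆ k (lfpS k) := hkm _ _ (fun a ha => ha.1)
          have h8 := h7 h6
          rw [lfpS_eq hkm, ← hW] at h8
          exact h8
        · have h6 : b :: u ∉ Yᶜ := h4.2.1 h
          have h7 : b :: u ∈ Y := not_not.1 h6
          rw [hW]
          exact h7.1
        · exact h4.2.2 h
      refine ⟨h5, ?_, ?_⟩
      · intro h
        exact rk_min hkm (h4.1 h)
      · intro h
        have h6 : b :: u ∉ Yᶜ := h4.2.1 h
        have h7 : b :: u ∈ Y := not_not.1 h6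
        exact h7.2
    by_cases h3u : V 3 u
    · left
      refine ⟨h3u, ?_⟩
      by_contra h0
      exact h3 (Or.inl ⟨h3u, h0⟩)
    · right
      refine ⟨h3u, ?_⟩
      by_cases h0 : V 0 u
      · left
        refine ⟨h0, ?_⟩
        by_contra hne
        push Not at hne
        apply h3
        refine Or.inr ⟨h3u, Or.inl ⟨h0, fun b => ?_⟩⟩
        by_contra hb
        exact hne b (hedge b hb)
      · right
        refine ⟨h0, fun b => ?_⟩
        apply hedge
        intro hb
        exact h3 (Or.inr ⟨h3u, Or.inr ⟨h0, b, hb⟩⟩)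
  set Q := mark (V 3) ch with hQ
  have hQm : ∀ u, Q u → u ∈ mᶜ := by
    intro u hu
    cases u with
    | nil => exact hroot
    | cons b u => exact hu.2.2.1
  have hval : ∀ p, p ≠ 4 → addL V 4 Q p = V p := fun p hp => Function.update_of_ne hp _ _
  have hval4 : addL V 4 Q 4 = Q := Function.update_self _ _ _
  refine ⟨Q, ?_⟩
  refine mem_fA _ v [] ?_ {u | Q u} ?_ ?_ ?_ ?_
  · change addL V 4 Q 4 []
    rw [hval4]
    trivial
  · trivial
  · -- the local condition
    intro u hu
    have h1 := hstep u (hQm u hu)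
    change (addL V 4 Q 3 u ∧ addL V 4 Q 0 u) ∨ (¬ addL V 4 Q 3 u ∧
      ((addL V 4 Q 0 u ∧ ∃ u', (∃ b, u' = b :: u) ∧ addL V 4 Q 4 u') ∨
        (¬ addL V 4 Q 0 u ∧ ∀ u', (∃ b, u' = b :: u) → addL V 4 Q 4 u')))
    rw [hval4, hval 3 (by decide), hval 0 (by decide)]
    rcases h1 with h1 | ⟨h3, ⟨h0, b, hb⟩ | ⟨h0, hb⟩⟩
    · exact Or.inl h1
    · exact Or.inr ⟨h3, Or.inl ⟨h0, b :: u, ⟨b, rfl⟩, hu, h3, hb⟩⟩
    · refine Or.inr ⟨h3, Or.inr ⟨h0, ?_⟩⟩
      rintro u' ⟨b, rfl⟩
      exact ⟨hu, h3, hb b⟩
  · -- the path condition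
    set G := eval (treeM (addL V 4 Q)) gQ v with hG
    have hGmon : Mon fun Y => eval (treeM (addL V 4 Q))
        (.nu 2 (.box (.or (.nlit 4) (.or (.lit 2) (.or (.and (.lit 1) (.var 1))
          (.and (.nlit 1) (.var 2))))))) (Function.update v 1 Y) := eval_mon _ _ v 1
    have key : ∀ o : Ordinal, ∀ u, Q u → r u ≤ o → u ∈ G := by
      intro o
      induction o using WellFoundedLT.induction with
      | ind o ih =>
        intro u hu hro
        rw [hG]
        unfold gQ
        rw [eval, ← lfpS_eq hGmon]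
        refine ⟨{u' | Q u' ∧ r u' ≤ o}, ?_, hu, hro⟩
        rintro u' ⟨hu', hro'⟩ w ⟨b, rfl⟩
        change ¬ addL V 4 Q 4 (b :: u') ∨ (addL V 4 Q 2 (b :: u') ∨
          ((addL V 4 Q 1 (b :: u') ∧ _) ∨ (¬ addL V 4 Q 1 (b :: u') ∧ _)))
        rw [hval4, hval 2 (by decide), hval 1 (by decide)]
        by_cases hQb : Q (b :: u')
        · right
          by_cases h2 : V 2 (b :: u')
          · exact Or.inl h2
          · right
            have hch' : ch u' (b :: u') := hQb.2.2
            by_cases h1 : V 1 (b :: u')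
            · left
              refine ⟨h1, ?_⟩
              have hlt : r (b :: u') < o := lt_of_lt_of_le (hch'.2.2 (prT_one h2 h1)) hro'
              have := ih _ hlt (b :: u') hQb le_rfl
              simp only [eval]
              rw [Function.update_of_ne (by decide), Function.update_self]
              exact this
            · right
              refine ⟨h1, ?_⟩
              simp only [eval]
              rw [Function.update_self]
              exact ⟨hQb, (hch'.2.1 (prT_zero h2 h1)).trans hro'⟩
        · exact Or.inl hQb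
    intro u hu
    exact key (r u) u hu le_rfl
  · rintro u hu u' ⟨b, rfl⟩ h4
    change addL V 4 Q 4 (b :: u) at h4
    rw [hval4] at h4
    exact h4

/-- **The marking when the root is in the fixpoint.** -/
theorem exists_markC (V : ℕ → Nd → Prop) (v : ℕ → Set Nd)
    (hroot : ([] : Nd) ∈ lev3 (treeOp V)) :
    ∃ R : Nd → Prop, ([] : Nd) ∈ eval (treeM (addL V 5 R)) fC v := by
  classical
  set F := treeOp V with hF
  have hFm : Mon3 F := treeOp_mono V
  set m := lev3 F with hm
  have h2m : Mon (lev2 F) := hFm.m3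
  have hml : m = lfpS (lev2 F) := rfl
  set r := rk (lev2 F) with hr
  set A : Ordinal → Set Nd := fun o => {b | b ∈ lfpS (lev2 F) ∧ r b < o} with hA
  set K : Ordinal → Set Nd := fun o => lev2 F (A o) with hK
  have hKm : ∀ o, K o ⊆ m := by
    intro o
    have h1 : K o ⊆ lev2 F m := h2m _ _ (fun a ha => ha.1)
    have h2 : lev2 F m = m := lev3_eq hFm
    rwa [h2] at h1
  set g : Ordinal → Set Nd → Set Nd := fun o X => F X (K o) (A o) with hg
  have hgm : ∀ o, Mon (g o) := fun o => hFm.m1 _ _
  have hKg : ∀ o, K o = lfpS (g o) := fun o => (lev2_eq hFm (A o)).symm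
  set r0 : Ordinal → Nd → Ordinal := fun o => rk (g o) with hr0
  set ch : Nd → Nd → Prop := fun u u' => u' ∈ m ∧ (prT V u' = 2 → r u' < r u) ∧
    (prT V u' = 1 → r u' ≤ r u) ∧ (prT V u' = 0 → r u' < r u ∨
      (r u' = r u ∧ r0 (r u) u' < r0 (r u) u)) with hch
  have hstep : ∀ u ∈ m, (V 3 u ∧ ¬ V 0 u) ∨ (¬ V 3 u ∧
      ((V 0 u ∧ ∀ b : Bool, ch u (b :: u)) ∨ (¬ V 0 u ∧ ∃ b : Bool, ch u (b :: u)))) := by
    intro u hu
    have h1 : u ∈ K (r u) := rk_spec h2m hu
    have h1' : u ∈ lfpS (g (r u)) := (hKg (r u)) ▸ h1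
    set X0 := {b | b ∈ lfpS (g (r u)) ∧ r0 (r u) b < r0 (r u) u} with hX0
    have h2 : u ∈ g (r u) X0 := rk_spec (hgm (r u)) h1'
    have hedge : ∀ b : Bool, b :: u ∈ rd (prT V) X0 (K (r u)) (A (r u)) → ch u (b :: u) := by
      intro b hb
      have h4 := mem_rd hb
      have hcase : prT V (b :: u) = 0 ∨ prT V (b :: u) = 1 ∨ prT V (b :: u) = 2 := by
        generalize prT V (b :: u) = k
        revert k
        decide
      rcases hcase with h | h | h
      · have h5 : b :: u ∈ X0 := h4.1 h
        have h6 : b :: u ∈ K (r u) := by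
          rw [hKg]
          exact h5.1
        have h7 : r (b :: u) ≤ r u := rk_min h2m h6
        refine ⟨hKm _ h6, ?_, ?_, ?_⟩
        · intro h'
          rw [h] at h'
          exact absurd h' (by decide)
        · intro _
          exact h7
        · intro _
          rcases lt_or_eq_of_le h7 with h8 | h8
          · exact Or.inl h8
          · exact Or.inr ⟨h8, h5.2⟩
      · have h5 : b :: u ∈ K (r u) := h4.2.1 h
        refine ⟨hKm _ h5, ?_, ?_, ?_⟩
        · intro h'
          rw [h] at h'
          exact absurd h' (by decide)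
        · intro _
          exact rk_min h2m h5
        · intro h'
          rw [h] at h'
          exact absurd h' (by decide)
      · have h5 : b :: u ∈ A (r u) := h4.2.2 h
        refine ⟨h5.1, ?_, ?_, ?_⟩
        · intro _
          exact h5.2
        · intro h'
          rw [h] at h'
          exact absurd h' (by decide)
        · intro h'
          rw [h] at h'
          exact absurd h' (by decide)
    rcases h2 with h2 | ⟨h3, ⟨h0, hb⟩ | ⟨h0, b, hb⟩⟩
    · exact Or.inl h2
    · exact Or.inr ⟨h3, Or.inl ⟨h0, fun b => hedge b (hb b)⟩⟩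
    · exact Or.inr ⟨h3, Or.inr ⟨h0, b, hedge b hb⟩⟩
  set Q := mark (V 3) ch with hQ
  have hQm : ∀ u, Q u → u ∈ m := by
    intro u hu
    cases u with
    | nil => exact hroot
    | cons b u => exact hu.2.2.1
  have hval : ∀ p, p ≠ 5 → addL V 5 Q p = V p := fun p hp => Function.update_of_ne hp _ _
  have hval5 : addL V 5 Q 5 = Q := Function.update_self _ _ _
  refine ⟨Q, ?_⟩
  refine mem_fC _ v [] ?_ {u | Q u} ?_ ?_ ?_ ?_ ?_
  · change addL V 5 Q 5 []
    rw [hval5]
    trivial
  · trivial
  · intro u hu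
    have h1 := hstep u (hQm u hu)
    change (addL V 5 Q 3 u ∧ ¬ addL V 5 Q 0 u) ∨ (¬ addL V 5 Q 3 u ∧
      ((addL V 5 Q 0 u ∧ ∀ u', (∃ b, u' = b :: u) → addL V 5 Q 5 u') ∨
        (¬ addL V 5 Q 0 u ∧ ∃ u', (∃ b, u' = b :: u) ∧ addL V 5 Q 5 u')))
    rw [hval5, hval 3 (by decide), hval 0 (by decide)]
    rcases h1 with h1 | ⟨h3, ⟨h0, hb⟩ | ⟨h0, b, hb⟩⟩
    · exact Or.inl h1
    · refine Or.inr ⟨h3, Or.inl ⟨h0, ?_⟩⟩
      rintro u' ⟨b, rfl⟩
      exact ⟨hu, h3, hb b⟩
    · exact Or.inr ⟨h3, Or.inr ⟨h0, b :: u, ⟨b, rfl⟩, hu, h3, hb⟩⟩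
  · -- finitely many priorities 2
    set G := eval (treeM (addL V 5 Q)) gR v with hG
    have hGmon : Mon fun Y => eval (treeM (addL V 5 Q))
        (.nu 2 (.box (.or (.nlit 5) (.or (.and (.lit 2) (.var 1)) (.and (.nlit 2) (.var 2))))))
          (Function.update v 1 Y) := eval_mon _ _ v 1
    have key : ∀ o : Ordinal, ∀ u, Q u → r u ≤ o → u ∈ G := by
      intro o
      induction o using WellFoundedLT.induction with
      | ind o ih =>
        intro u hu hro
        rw [hG]
        unfold gR
        rw [eval, ← lfpS_eq hGmon]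
        refine ⟨{u' | Q u' ∧ r u' ≤ o}, ?_, hu, hro⟩
        rintro u' ⟨hu', hro'⟩ w ⟨b, rfl⟩
        change ¬ addL V 5 Q 5 (b :: u') ∨ ((addL V 5 Q 2 (b :: u') ∧ _) ∨
          (¬ addL V 5 Q 2 (b :: u') ∧ _))
        rw [hval5, hval 2 (by decide)]
        by_cases hQb : Q (b :: u')
        · right
          have hch' : ch u' (b :: u') := hQb.2.2
          by_cases h2 : V 2 (b :: u')
          · left
            refine ⟨h2, ?_⟩
            have hlt : r (b :: u') < o := lt_of_lt_of_le (hch'.2.1 (prT_two h2)) hro'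
            have := ih _ hlt (b :: u') hQb le_rfl
            simp only [eval]
            rw [Function.update_of_ne (by decide), Function.update_self]
            exact this
          · right
            refine ⟨h2, ?_⟩
            simp only [eval]
            rw [Function.update_self]
            refine ⟨hQb, ?_⟩
            by_cases h1 : V 1 (b :: u')
            · exact (hch'.2.2.1 (prT_one h2 h1)).trans hro'
            · rcases hch'.2.2.2 (prT_zero h2 h1) with h | h
              · exact h.le.trans hro'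
              · exact h.1.le.trans hro'
        · exact Or.inl hQb
    intro u hu
    exact key (r u) u hu le_rfl
  · -- no path with only priorities 0
    set G := eval (treeM (addL V 5 Q)) hR v with hG
    have hGmon : Mon fun Y => eval (treeM (addL V 5 Q))
        (.box (.or (.nlit 5) (.or (.lit 2) (.or (.lit 1) (.var 1)))))
          (Function.update v 1 Y) := eval_mon _ _ v 1
    have key : ∀ o : Ordinal, ∀ o' : Ordinal, ∀ u, Q u → r u = o → r0 o u = o' → u ∈ G := by
      intro o
      induction o using WellFoundedLT.induction with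
      | ind o ih =>
        intro o'
        induction o' using WellFoundedLT.induction with
        | ind o' ih' =>
          intro u hu hro hro'
          rw [hG]
          unfold hR
          rw [eval, ← lfpS_eq hGmon]
          rintro w ⟨b, rfl⟩
          change ¬ addL V 5 Q 5 (b :: u) ∨ (addL V 5 Q 2 (b :: u) ∨
            (addL V 5 Q 1 (b :: u) ∨ _))
          rw [hval5, hval 2 (by decide), hval 1 (by decide)]
          by_cases hQb : Q (b :: u)
          · right
            have hch' : ch u (b :: u) := hQb.2.2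
            by_cases h2 : V 2 (b :: u)
            · exact Or.inl h2
            · right
              by_cases h1 : V 1 (b :: u)
              · exact Or.inl h1
              · right
                simp only [eval]
                rw [Function.update_self]
                rcases hch'.2.2.2 (prT_zero h2 h1) with h | ⟨h, h'⟩
                · rw [hro] at h
                  exact ih _ h _ (b :: u) hQb rfl rfl
                · rw [hro] at h h'
                  rw [hro'] at h'
                  exact ih' _ h' (b :: u) hQb h rfl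
          · exact Or.inl hQb
    intro u hu
    exact key _ _ u hu rfl rfl
  · rintro u hu u' ⟨b, rfl⟩ h4
    change addL V 5 Q 5 (b :: u) at h4
    rw [hval5] at h4
    exact h4

end Pool.Agent.X223.MuI
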