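import Pool.Agent.X223.MuI.Real

/-!
# The self-referential tree
-/

namespace Pool.Agent.X223.MuI

/-- The priority of a node of a labelled tree: letters `1` and `2`. -/
noncomputable def prT (V : ℕ → Nd → Prop) (u : Nd) : Fin 3 :=
  open Classical in if V 2 u then 2 else if V 1 u then 1 else 0

/-- The operator of the game on a labelled tree. Letter `3` marks the final nodes, letter `0` the
universal nodes. -/
def treeOp (V : ℕ → Nd → Prop) (X1 X2 X3 : Set Nd) : Set Nd :=
  {u | (V 3 u ∧ ¬ V 0 u) ∨ (¬ V 3 u ∧ ((V 0 u ∧ ∀ b : Bool, b :: u ∈ rd (prT V) X1 X2 X3) ∨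
    (¬ V 0 u ∧ ∃ b : Bool, b :: u ∈ rd (prT V) X1 X2 X3)))}

theorem treeOp_mono (V : ℕ → Nd → Prop) : Mon3 (treeOp V) := by
  intro X1 X2 X3 Y1 Y2 Y3 h1 h2 h3 u hu
  have h := rd_mono (prT V) h1 h2 h3
  rcases hu with hu | ⟨hu, ⟨h0, hb⟩ | ⟨h0, b, hb⟩⟩
  · exact Or.inl hu
  · exact Or.inr ⟨hu, Or.inl ⟨h0, fun b => h (hb b)⟩⟩
  · exact Or.inr ⟨hu, Or.inr ⟨h0, b, h hb⟩⟩

section

variable {S : Type} (pr : S → Fin 3) (δ : S → Node S) (i : Node S)

/-- The positions: a priority, a node, and a point of the tree. -/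
abbrev Pos (S : Type) := Fin 3 × Node S × Nd

/-- The successors of a position. -/
def nxt (b : Bool) : Pos S → Pos S
  | (_, .and s s', w) => (pr (cond b s' s), δ (cond b s' s), w)
  | (_, .or s s', w) => (pr (cond b s' s), δ (cond b s' s), w)
  | (_, .dia s, w) => (pr s, δ s, b :: w)
  | (_, .box s, w) => (pr s, δ s, b :: w)
  | p => p

/-- The position belonging to a node. -/
def pos : Nd → Option (Pos S)
  | [] => none
  | b :: u => some (match pos u with
    | none => (0, i, [])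
    | some p => nxt pr δ b p)

theorem nxt_length (b : Bool) (p : Pos S) : (nxt pr δ b p).2.2.length ≤ p.2.2.length + 1 := by
  obtain ⟨q, n, w⟩ := p
  cases n <;> simp [nxt]

theorem pos_length : ∀ (u : Nd) (p : Pos S), pos pr δ i u = some p → p.2.2.length < u.length
  | [], p, h => by cases h
  | b :: u, p, h => by
    have ih := pos_length u
    unfold pos at h
    cases hu : pos pr δ i u with
    | none =>
      rw [hu] at h
      cases h
      simp
    | some p' =>
      rw [hu] at h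
      cases h
      have h1 := nxt_length pr δ b p'
      have h2 := ih p' hu
      simp only [List.length_cons]
      omega

/-- The priority of a position. -/
def prP : Option (Pos S) → Fin 3
  | none => 0
  | some p => p.1

/-- Final positions. -/
def isLeaf : Option (Pos S) → Prop
  | none => False
  | some (_, .tt, _) => True
  | some (_, .ff, _) => True
  | some (_, .lit _, _) => True
  | some (_, .nlit _, _) => True
  | some (_, .var _, _) => True
  | some (_, .and _ _, _) => False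
  | some (_, .or _ _, _) => False
  | some (_, .dia _, _) => False
  | some (_, .box _, _) => False

/-- The letters `1`, `2`, `3` of the tree. -/
def stat (p : ℕ) (u : Nd) : Prop :=
  (p = 1 ∧ prP (pos pr δ i u) = 1) ∨ (p = 2 ∧ prP (pos pr δ i u) = 2) ∨
    (p = 3 ∧ isLeaf (pos pr δ i u))

/-- The letter `0` at a position, from the truth of the letters. -/
def eP (val : ℕ → Nd → Prop) : Option (Pos S) → Prop
  | none => True
  | some (_, .tt, _) => False
  | some (_, .ff, _) => True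
  | some (_, .lit p, w) => ¬ val p w
  | some (_, .nlit p, w) => val p w
  | some (_, .var _, _) => True
  | some (_, .and _ _, _) => True
  | some (_, .or _ _, _) => False
  | some (_, .dia _, _) => False
  | some (_, .box _, _) => True

/-- The letter `0` of the tree. -/
def eL (u : Nd) : Prop :=
  eP (fun p w => (p = 0 ∧ ∃ _ : w.length < u.length, eL w) ∨ stat pr δ i p w) (pos pr δ i u)
termination_by u.length

/-- The labelling of the self-referential tree. -/
def VS (p : ℕ) (u : Nd) : Prop := (p = 0 ∧ eL pr δ i u) ∨ stat pr δ i p u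

theorem eP_congr {val val' : ℕ → Nd → Prop} {n : ℕ}
    (h : ∀ p w, w.length < n → (val p w ↔ val' p w)) {o : Option (Pos S)}
    (ho : ∀ p, o = some p → p.2.2.length < n) : eP val o ↔ eP val' o := by
  match o, ho with
  | none, _ => exact Iff.rfl
  | some (_, .tt, _), _ => exact Iff.rfl
  | some (_, .ff, _), _ => exact Iff.rfl
  | some (_, .lit p, w), ho => exact not_congr (h p w (ho _ rfl))
  | some (_, .nlit p, w), ho => exact h p w (ho _ rfl)
  | some (_, .var _, _), _ => exact Iff.rfl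
  | some (_, .and _ _, _), _ => exact Iff.rfl
  | some (_, .or _ _, _), _ => exact Iff.rfl
  | some (_, .dia _, _), _ => exact Iff.rfl
  | some (_, .box _, _), _ => exact Iff.rfl

theorem VS_zero (u : Nd) : VS pr δ i 0 u ↔ eP (VS pr δ i) (pos pr δ i u) := by
  have h1 : VS pr δ i 0 u ↔ eL pr δ i u := by
    constructor
    · rintro (⟨_, h⟩ | ⟨h, _⟩ | ⟨h, _⟩ | ⟨h, _⟩)
      · exact h
      · cases h
      · cases h
      · cases h
    · intro h
      exact Or.inl ⟨rfl, h⟩
  rw [h1, eL]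
  refine eP_congr (n := u.length) ?_ (fun p hp => pos_length pr δ i u p hp)
  intro p w hw
  constructor
  · rintro (⟨h, _, h2⟩ | h)
    · exact Or.inl ⟨h, h2⟩
    · exact Or.inr h
  · rintro (⟨h, h2⟩ | h)
    · exact Or.inl ⟨h, hw, h2⟩
    · exact Or.inr h

theorem VS_one (u : Nd) : VS pr δ i 1 u ↔ prP (pos pr δ i u) = 1 := by
  constructor
  · rintro (⟨h, _⟩ | ⟨_, h⟩ | ⟨h, _⟩ | ⟨h, _⟩)
    · cases h
    · exact h
    · cases h
    · cases h
  · intro h
    exact Or.inr (Or.inl ⟨rfl, h⟩)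

theorem VS_two (u : Nd) : VS pr δ i 2 u ↔ prP (pos pr δ i u) = 2 := by
  constructor
  · rintro (⟨h, _⟩ | ⟨h, _⟩ | ⟨_, h⟩ | ⟨h, _⟩)
    · cases h
    · cases h
    · exact h
    · cases h
  · intro h
    exact Or.inr (Or.inr (Or.inl ⟨rfl, h⟩))

theorem VS_three (u : Nd) : VS pr δ i 3 u ↔ isLeaf (pos pr δ i u) := by
  constructor
  · rintro (⟨h, _⟩ | ⟨h, _⟩ | ⟨h, _⟩ | ⟨_, h⟩)
    · cases h
    · cases h
    · cases h
    · exact h
  · intro h
    exact Or.inr (Or.inr (Or.inr ⟨rfl, h⟩))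

theorem prT_VS (u : Nd) : prT (VS pr δ i) u = prP (pos pr δ i u) := by
  unfold prT
  rw [VS_two, VS_one]
  generalize prP (pos pr δ i u) = k
  fin_cases k <;> simp

/-- The operator on positions. -/
def opP (V : ℕ → Nd → Prop) (v : ℕ → Set Nd) (X1 X2 X3 : Set (Option (Pos S))) :
    Set (Option (Pos S)) :=
  {o | (o = none ∧ some (0, i, []) ∈ X1) ∨ ∃ p, o = some p ∧
    nev V v {q : S × Nd | some (pr q.1, δ q.1, q.2) ∈ rd prP X1 X2 X3} p.2.2 p.2.1}

theorem opP_mono (V : ℕ → Nd → Prop) (v : ℕ → Set Nd) : Mon3 (opP pr δ i V v) := by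
  intro X1 X2 X3 Y1 Y2 Y3 h1 h2 h3 o ho
  rcases ho with ⟨h, ho⟩ | ⟨p, h, hp⟩
  · exact Or.inl ⟨h, h1 ho⟩
  · refine Or.inr ⟨p, h, nev_mono (fun _ => Set.Subset.rfl) ?_ hp⟩
    intro q hq
    exact rd_mono prP h1 h2 h3 hq

theorem sol_eq_pos (V : ℕ → Nd → Prop) (v : ℕ → Set Nd) :
    {q : S × Nd | some (pr q.1, δ q.1, q.2) ∈ lev3 (opP pr δ i V v)} = sol pr δ V v := by
  refine preimage_lev3 (opP_mono pr δ i V v) (op_mono pr δ V v)
    (fun q : S × Nd => (some (pr q.1, δ q.1, q.2) : Option (Pos S))) ?_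
  intro X1 X2 X3
  ext q
  constructor
  · rintro (⟨h, _⟩ | ⟨p, h, hp⟩)
    · cases h
    · cases h
      exact hp
  · intro h
    exact Or.inr ⟨_, rfl, h⟩

theorem tree_eq_pos :
    {u : Nd | pos pr δ i u ∈ lev3 (opP pr δ i (VS pr δ i) fun _ => ∅)} =
      lev3 (treeOp (VS pr δ i)) := by
  refine preimage_lev3 (opP_mono pr δ i _ _) (treeOp_mono _) (pos pr δ i) ?_
  intro X1 X2 X3
  have hrd : rd (prT (VS pr δ i)) (pos pr δ i ⁻¹' X1) (pos pr δ i ⁻¹' X2) (pos pr δ i ⁻¹' X3) =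
      pos pr δ i ⁻¹' (rd prP X1 X2 X3) := by
    rw [preimage_rd]
    congr 1
    funext u
    exact prT_VS pr δ i u
  ext u
  change pos pr δ i u ∈ opP pr δ i (VS pr δ i) (fun _ => ∅) X1 X2 X3 ↔
    (VS pr δ i 3 u ∧ ¬ VS pr δ i 0 u) ∨ (¬ VS pr δ i 3 u ∧
      ((VS pr δ i 0 u ∧ ∀ b : Bool, b :: u ∈ rd (prT (VS pr δ i)) _ _ _) ∨
        (¬ VS pr δ i 0 u ∧ ∃ b : Bool, b :: u ∈ rd (prT (VS pr δ i)) _ _ _)))
  rw [hrd, VS_zero, VS_three]
  cases hp : pos pr δ i u with
  | none =>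
    have h1 : ∀ b, pos pr δ i (b :: u) = some (0, i, []) := by
      intro b
      rw [pos, hp]
    have h2 : ∀ b, b :: u ∈ pos pr δ i ⁻¹' (rd prP X1 X2 X3) ↔ some (0, i, []) ∈ X1 := by
      intro b
      rw [Set.mem_preimage, h1]
      simp [rd, prP]
    simp only [h2, isLeaf, eP]
    constructor
    · rintro (⟨_, h⟩ | ⟨p, h, _⟩)
      · exact Or.inr ⟨not_false, Or.inl ⟨trivial, fun _ => h⟩⟩
      · cases h
    · rintro (⟨h, _⟩ | ⟨_, ⟨_, h⟩ | ⟨h, _⟩⟩)
      · exact h.elim
      · exact Or.inl ⟨rfl, h true⟩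
      · exact absurd trivial h
  | some p =>
    have h1 : ∀ b, pos pr δ i (b :: u) = some (nxt pr δ b p) := by
      intro b
      rw [pos, hp]
    have h2 : ∀ b, b :: u ∈ pos pr δ i ⁻¹' (rd prP X1 X2 X3) ↔
        some (nxt pr δ b p) ∈ rd prP X1 X2 X3 := by
      intro b
      rw [Set.mem_preimage, h1]
    simp only [h2]
    have h3 : (some p ∈ opP pr δ i (VS pr δ i) (fun _ => ∅) X1 X2 X3) ↔
        nev (VS pr δ i) (fun _ => ∅) {q : S × Nd | some (pr q.1, δ q.1, q.2) ∈ rd prP X1 X2 X3}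
          p.2.2 p.2.1 := by
      constructor
      · rintro (⟨h, _⟩ | ⟨p', h, hp'⟩)
        · cases h
        · cases h
          exact hp'
      · intro h
        exact Or.inr ⟨p, rfl, h⟩
    rw [h3]
    obtain ⟨q, n, w⟩ := p
    cases n with
    | tt => simp [nev, isLeaf, eP]
    | ff => simp [nev, isLeaf, eP]
    | lit p => simp [nev, isLeaf, eP]
    | nlit p => simp [nev, isLeaf, eP]
    | var x => simp [nev, isLeaf, eP]
    | and s s' => simp [nev, isLeaf, eP, nxt]
    | or s s' => simp [nev, isLeaf, eP, nxt]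
    | dia s => simp [nev, isLeaf, eP, nxt]
    | box s => simp [nev, isLeaf, eP, nxt]

theorem root_iff :
    ([] : Nd) ∈ out pr δ i (VS pr δ i) (fun _ => ∅) ↔
      ([] : Nd) ∈ lev3 (treeOp (VS pr δ i)) := by
  rw [← tree_eq_pos]
  set m := lev3 (opP pr δ i (VS pr δ i) fun _ => ∅) with hm
  have he : opP pr δ i (VS pr δ i) (fun _ => ∅) m m m = m :=
    lev3_eq' (opP_mono pr δ i _ _)
  have h1 : (none : Option (Pos S)) ∈ m ↔ some ((0 : Fin 3), i, ([] : Nd)) ∈ m := by
    conv_lhs => rw [← he]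
    constructor
    · rintro (⟨_, h⟩ | ⟨p, h, _⟩)
      · exact h
      · cases h
    · intro h
      exact Or.inl ⟨rfl, h⟩
  have h2 : some ((0 : Fin 3), i, ([] : Nd)) ∈ m ↔
      nev (VS pr δ i) (fun _ => ∅) {q : S × Nd | some (pr q.1, δ q.1, q.2) ∈ m} [] i := by
    conv_lhs => rw [← he]
    constructor
    · rintro (⟨h, _⟩ | ⟨p, h, hp⟩)
      · cases h
      · cases h
        rw [rd_self] at hp
        exact hp
    · intro h
      refine Or.inr ⟨_, rfl, ?_⟩
      rw [rd_self]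
      exact h
  change nev _ _ (sol pr δ _ _) _ _ ↔ (none : Option (Pos S)) ∈ m
  rw [h1, h2, hm, sol_eq_pos]

end

/-- **The diagonal argument.** -/
theorem diag {f : (ℕ → Nd → Prop) → (ℕ → Set Nd) → Set Nd} (hf : Real Set.univ f) :
    ∃ V : ℕ → Nd → Prop, ([] : Nd) ∈ f V (fun _ => ∅) ↔ ([] : Nd) ∈ lev3 (treeOp V) := by
  obtain ⟨S, pr, δ, i, _, h⟩ := hf
  refine ⟨VS pr δ i, ?_⟩
  rw [h]
  exact root_iff pr δ i

end Pool.Agent.X223.MuI
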