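import Pool.Agent.X223.MuI.Defs

/-!
# Least and greatest fixpoints on sets
-/

namespace Pool.Agent.X223.MuI

universe u

variable {α β : Type*}

/-- Monotone operators on sets. -/
abbrev Mon (f : Set α → Set α) : Prop := ∀ X Y : Set α, X ⊆ Y → f X ⊆ f Y

theorem lfpS_le {f : Set α → Set α} {X : Set α} (h : f X ⊆ X) : lfpS f ⊆ X := by
  intro a ha
  exact ha X h

theorem le_gfpS {f : Set α → Set α} {X : Set α} (h : X ⊆ f X) : X ⊆ gfpS f := by
  intro a ha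
  exact ⟨X, h, ha⟩

theorem lfpS_eq {f : Set α → Set α} (hf : Mon f) : f (lfpS f) = lfpS f := by
  have h1 : f (lfpS f) ⊆ lfpS f := by
    intro a ha X hX
    exact hX (hf _ _ (lfpS_le hX) ha)
  refine Set.Subset.antisymm h1 ?_
  exact lfpS_le (hf _ _ h1)

theorem gfpS_eq {f : Set α → Set α} (hf : Mon f) : f (gfpS f) = gfpS f := by
  have h1 : gfpS f ⊆ f (gfpS f) := by
    rintro a ⟨X, hX, ha⟩
    exact hf _ _ (le_gfpS hX) (hX ha)
  refine Set.Subset.antisymm ?_ h1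
  exact le_gfpS (hf _ _ h1)

theorem lfpS_mono {f g : Set α → Set α} (h : ∀ X, f X ⊆ g X) : lfpS f ⊆ lfpS g := by
  intro a ha X hX
  exact ha X ((h X).trans hX)

theorem gfpS_mono {f g : Set α → Set α} (h : ∀ X, f X ⊆ g X) : gfpS f ⊆ gfpS g := by
  rintro a ⟨X, hX, ha⟩
  exact ⟨X, hX.trans (h X), ha⟩

theorem lfpS_const (Y : Set α) : lfpS (fun _ : Set α => Y) = Y :=
  (lfpS_eq (f := fun _ : Set α => Y) (fun _ _ _ => Set.Subset.rfl)).symm

theorem gfpS_const (Y : Set α) : gfpS (fun _ : Set α => Y) = Y :=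
  (gfpS_eq (f := fun _ : Set α => Y) (fun _ _ _ => Set.Subset.rfl)).symm

/-- Two monotone operators which agree on a class containing both least fixpoints. -/
theorem lfpS_congr {f g : Set α → Set α} (hf : Mon f) (hg : Mon g) (C : Set α → Prop)
    (h : ∀ X, C X → f X = g X) (h1 : C (lfpS f)) (h2 : C (lfpS g)) : lfpS f = lfpS g := by
  apply Set.Subset.antisymm
  · apply lfpS_le
    rw [h _ h2, lfpS_eq hg]
  · apply lfpS_le
    rw [← h _ h1, lfpS_eq hf]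

theorem gfpS_congr {f g : Set α → Set α} (hf : Mon f) (hg : Mon g) (C : Set α → Prop)
    (h : ∀ X, C X → f X = g X) (h1 : C (gfpS f)) (h2 : C (gfpS g)) : gfpS f = gfpS g := by
  apply Set.Subset.antisymm
  · apply le_gfpS
    rw [← h _ h1, gfpS_eq hf]
  · apply le_gfpS
    rw [h _ h2, gfpS_eq hg]

/-- Transfer of a least fixpoint along a preimage. -/
theorem preimage_lfpS {h : Set β → Set β} {g : Set α → Set α} (hh : Mon h) (hg : Mon g)
    (f : α → β) (H : ∀ X, f ⁻¹' (h X) = g (f ⁻¹' X)) : f ⁻¹' (lfpS h) = lfpS g := by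
  apply Set.Subset.antisymm
  · have key : lfpS h ⊆ {b | ∀ a, f a = b → a ∈ lfpS g} := by
      apply lfpS_le
      intro b hb a hab
      have h1 : a ∈ f ⁻¹' (h {b | ∀ a, f a = b → a ∈ lfpS g}) := by
        rw [Set.mem_preimage, hab]
        exact hb
      rw [H] at h1
      have h2 : f ⁻¹' {b | ∀ a, f a = b → a ∈ lfpS g} ⊆ lfpS g := by
        intro a' ha'
        exact ha' a' rfl
      have h3 := hg _ _ h2 h1
      rwa [lfpS_eq hg] at h3
    intro a ha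
    exact key ha a rfl
  · apply lfpS_le
    rw [← H, lfpS_eq hh]

/-- Transfer of a greatest fixpoint along a preimage. -/
theorem preimage_gfpS {h : Set β → Set β} {g : Set α → Set α} (hh : Mon h) (hg : Mon g)
    (f : α → β) (H : ∀ X, f ⁻¹' (h X) = g (f ⁻¹' X)) : f ⁻¹' (gfpS h) = gfpS g := by
  apply Set.Subset.antisymm
  · apply le_gfpS
    rw [← H, gfpS_eq hh]
  · have key : f '' (gfpS g) ⊆ gfpS h := by
      apply le_gfpS
      rintro b ⟨a, ha, rfl⟩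
      rw [← gfpS_eq hg] at ha
      have h1 : a ∈ g (f ⁻¹' (f '' gfpS g)) := hg _ _ (Set.subset_preimage_image f _) ha
      rw [← H] at h1
      exact h1
    intro a ha
    exact key ⟨a, ha, rfl⟩

/-- The threefold nested fixpoint `μ X3. ν X2. μ X1. F X1 X2 X3`, by levels. -/
def lev1 (F : Set α → Set α → Set α → Set α) (X2 X3 : Set α) : Set α :=
  lfpS fun X1 => F X1 X2 X3

/-- Second level. -/
def lev2 (F : Set α → Set α → Set α → Set α) (X3 : Set α) : Set α :=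
  gfpS fun X2 => lev1 F X2 X3

/-- Third level. -/
def lev3 (F : Set α → Set α → Set α → Set α) : Set α :=
  lfpS fun X3 => lev2 F X3

/-- Monotonicity in three variables. -/
def Mon3 (F : Set α → Set α → Set α → Set α) : Prop :=
  ∀ X1 X2 X3 Y1 Y2 Y3 : Set α, X1 ⊆ Y1 → X2 ⊆ Y2 → X3 ⊆ Y3 → F X1 X2 X3 ⊆ F Y1 Y2 Y3

theorem Mon3.m1 {F : Set α → Set α → Set α → Set α} (hF : Mon3 F) (X2 X3 : Set α) :
    Mon fun X1 => F X1 X2 X3 := fun _ _ h => hF _ _ _ _ _ _ h Set.Subset.rfl Set.Subset.rfl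

theorem lev1_mono {F : Set α → Set α → Set α → Set α} (hF : Mon3 F) {X2 X3 Y2 Y3 : Set α}
    (h2 : X2 ⊆ Y2) (h3 : X3 ⊆ Y3) : lev1 F X2 X3 ⊆ lev1 F Y2 Y3 :=
  lfpS_mono fun _ => hF _ _ _ _ _ _ Set.Subset.rfl h2 h3

theorem Mon3.m2 {F : Set α → Set α → Set α → Set α} (hF : Mon3 F) (X3 : Set α) :
    Mon fun X2 => lev1 F X2 X3 := fun _ _ h => lev1_mono hF h Set.Subset.rfl

theorem lev2_mono {F : Set α → Set α → Set α → Set α} (hF : Mon3 F) {X3 Y3 : Set α}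
    (h3 : X3 ⊆ Y3) : lev2 F X3 ⊆ lev2 F Y3 :=
  gfpS_mono fun _ => lev1_mono hF Set.Subset.rfl h3

theorem Mon3.m3 {F : Set α → Set α → Set α → Set α} (hF : Mon3 F) :
    Mon (lev2 F) := fun _ _ h => lev2_mono hF h

theorem lev1_eq {F : Set α → Set α → Set α → Set α} (hF : Mon3 F) (X2 X3 : Set α) :
    F (lev1 F X2 X3) X2 X3 = lev1 F X2 X3 := lfpS_eq (hF.m1 X2 X3)

theorem lev2_eq {F : Set α → Set α → Set α → Set α} (hF : Mon3 F) (X3 : Set α) :
    lev1 F (lev2 F X3) X3 = lev2 F X3 := gfpS_eq (hF.m2 X3)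

theorem lev3_eq {F : Set α → Set α → Set α → Set α} (hF : Mon3 F) :
    lev2 F (lev3 F) = lev3 F := lfpS_eq hF.m3

theorem lev2_eq' {F : Set α → Set α → Set α → Set α} (hF : Mon3 F) (X3 : Set α) :
    F (lev2 F X3) (lev2 F X3) X3 = lev2 F X3 := by
  have h := lev1_eq hF (lev2 F X3) X3
  rwa [lev2_eq hF] at h

theorem lev3_eq1 {F : Set α → Set α → Set α → Set α} (hF : Mon3 F) :
    lev1 F (lev3 F) (lev3 F) = lev3 F := by
  have h := lev2_eq hF (lev3 F)
  rwa [lev3_eq hF] at h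

theorem lev3_eq' {F : Set α → Set α → Set α → Set α} (hF : Mon3 F) :
    F (lev3 F) (lev3 F) (lev3 F) = lev3 F := by
  have h := lev2_eq' hF (lev3 F)
  rwa [lev3_eq hF] at h

/-- Transfer along a preimage, first level. -/
theorem preimage_lev1 {H : Set β → Set β → Set β → Set β} {G : Set α → Set α → Set α → Set α}
    (hH : Mon3 H) (hG : Mon3 G) (f : α → β) (X2 X3 : Set β) (Y2 Y3 : Set α)
    (h : ∀ X1, f ⁻¹' (H X1 X2 X3) = G (f ⁻¹' X1) Y2 Y3) :
    f ⁻¹' (lev1 H X2 X3) = lev1 G Y2 Y3 :=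
  preimage_lfpS (hH.m1 _ _) (hG.m1 _ _) f h

theorem preimage_lev2 {H : Set β → Set β → Set β → Set β} {G : Set α → Set α → Set α → Set α}
    (hH : Mon3 H) (hG : Mon3 G) (f : α → β) (X3 : Set β) (Y3 : Set α)
    (h : ∀ X1 X2, f ⁻¹' (H X1 X2 X3) = G (f ⁻¹' X1) (f ⁻¹' X2) Y3) :
    f ⁻¹' (lev2 H X3) = lev2 G Y3 :=
  preimage_gfpS (hH.m2 _) (hG.m2 _) f fun X2 =>
    preimage_lev1 hH hG f X2 X3 _ _ fun X1 => h X1 X2

theorem preimage_lev3 {H : Set β → Set β → Set β → Set β} {G : Set α → Set α → Set α → Set α}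
    (hH : Mon3 H) (hG : Mon3 G) (f : α → β)
    (h : ∀ X1 X2 X3, f ⁻¹' (H X1 X2 X3) = G (f ⁻¹' X1) (f ⁻¹' X2) (f ⁻¹' X3)) :
    f ⁻¹' (lev3 H) = lev3 G :=
  preimage_lfpS hH.m3 hG.m3 f fun X3 =>
    preimage_lev2 hH hG f X3 _ fun X1 X2 => h X1 X2 X3

/-! ### Autonomous parts -/

/-- The part `K` of the operator depends only on the parts in `K` of the arguments. -/
def Aut (K : Set α) (F : Set α → Set α → Set α → Set α) : Prop :=
  ∀ X1 X2 X3 Y1 Y2 Y3 : Set α, X1 ∩ K = Y1 ∩ K → X2 ∩ K = Y2 ∩ K → X3 ∩ K = Y3 ∩ K →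
    F X1 X2 X3 ∩ K = F Y1 Y2 Y3 ∩ K

theorem lfpS_aut {K : Set α} {f g : Set α → Set α} (hg : Mon g)
    (h : ∀ X Y, X ∩ K = Y ∩ K → f X ∩ K = g Y ∩ K) : lfpS f ∩ K ⊆ lfpS g ∩ K := by
  have h1 : f ((lfpS g ∩ K) ∪ Kᶜ) ⊆ (lfpS g ∩ K) ∪ Kᶜ := by
    intro a ha
    by_cases hk : a ∈ K
    · have h2 : ((lfpS g ∩ K) ∪ Kᶜ) ∩ K = lfpS g ∩ K := by
        ext b
        simp only [Set.mem_inter_iff, Set.mem_union, Set.mem_compl_iff]
        tauto
      have h3 := h _ _ h2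
      have h4 : a ∈ g (lfpS g) ∩ K := by
        rw [← h3]
        exact ⟨ha, hk⟩
      rw [lfpS_eq hg] at h4
      exact Or.inl h4
    · exact Or.inr hk
  have h5 := lfpS_le h1
  rintro a ⟨ha, hk⟩
  rcases h5 ha with h6 | h6
  · exact h6
  · exact absurd hk h6

theorem gfpS_aut {K : Set α} {f g : Set α → Set α} (hf : Mon f)
    (h : ∀ X Y, X ∩ K = Y ∩ K → f X ∩ K = g Y ∩ K) : gfpS f ∩ K ⊆ gfpS g ∩ K := by
  have h1 : gfpS f ∩ K ⊆ g (gfpS f ∩ K) := by
    rintro a ⟨ha, hk⟩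
    have h2 : gfpS f ∩ K = (gfpS f ∩ K) ∩ K := by
      rw [Set.inter_assoc, Set.inter_self]
    have h3 := h _ _ h2
    rw [← gfpS_eq hf] at ha
    have h4 : a ∈ g (gfpS f ∩ K) ∩ K := by
      rw [← h3]
      exact ⟨ha, hk⟩
    exact h4.1
  rintro a ⟨ha, hk⟩
  exact ⟨le_gfpS h1 ⟨ha, hk⟩, hk⟩

theorem lev1_aut {K : Set α} {F : Set α → Set α → Set α → Set α} (hF : Mon3 F) (hK : Aut K F)
    {X2 X3 Y2 Y3 : Set α} (h2 : X2 ∩ K = Y2 ∩ K) (h3 : X3 ∩ K = Y3 ∩ K) :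
    lev1 F X2 X3 ∩ K = lev1 F Y2 Y3 ∩ K := by
  apply Set.Subset.antisymm
  · exact lfpS_aut (hF.m1 _ _) fun X Y h => hK _ _ _ _ _ _ h h2 h3
  · exact lfpS_aut (hF.m1 _ _) fun X Y h => hK _ _ _ _ _ _ h h2.symm h3.symm

theorem lev2_aut {K : Set α} {F : Set α → Set α → Set α → Set α} (hF : Mon3 F) (hK : Aut K F)
    {X3 Y3 : Set α} (h3 : X3 ∩ K = Y3 ∩ K) : lev2 F X3 ∩ K = lev2 F Y3 ∩ K := by
  apply Set.Subset.antisymm
  · exact gfpS_aut (hF.m2 _) fun X Y h => lev1_aut hF hK h h3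
  · exact gfpS_aut (hF.m2 _) fun X Y h => lev1_aut hF hK h h3.symm

/-- Replace the part in `K` by that of `m`. -/
def rep (K m X : Set α) : Set α := (X \ K) ∪ (m ∩ K)

theorem rep_inter (K m X : Set α) : rep K m X ∩ K = m ∩ K := by
  ext a
  simp only [rep, Set.mem_inter_iff, Set.mem_union, Set.mem_sdiff]
  tauto

theorem rep_eq {K m X : Set α} (h : X ∩ K = m ∩ K) : rep K m X = X := by
  rw [rep, ← h]
  ext a
  simp only [Set.mem_inter_iff, Set.mem_union, Set.mem_sdiff]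
  tauto

theorem rep_mono {K m X Y : Set α} (h : X ⊆ Y) : rep K m X ⊆ rep K m Y := by
  intro a ha
  rcases ha with ha | ha
  · exact Or.inl ⟨h ha.1, ha.2⟩
  · exact Or.inr ha

/-- **Constant replacement**: an autonomous part may be replaced by its final value. -/
theorem lev3_rep {K : Set α} {F : Set α → Set α → Set α → Set α} (hF : Mon3 F) (hK : Aut K F) :
    lev3 (fun X1 X2 X3 => F (rep K (lev3 F) X1) (rep K (lev3 F) X2) (rep K (lev3 F) X3)) =
      lev3 F := by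
  set m := lev3 F with hm
  set F' : Set α → Set α → Set α → Set α :=
    fun X1 X2 X3 => F (rep K m X1) (rep K m X2) (rep K m X3) with hF'def
  have hF' : Mon3 F' := fun X1 X2 X3 Y1 Y2 Y3 h1 h2 h3 =>
    hF _ _ _ _ _ _ (rep_mono h1) (rep_mono h2) (rep_mono h3)
  have hC : ∀ X1 X2 X3, F' X1 X2 X3 ∩ K = m ∩ K := by
    intro X1 X2 X3
    have h1 := hK (rep K m X1) (rep K m X2) (rep K m X3) m m m (rep_inter _ _ _)
      (rep_inter _ _ _) (rep_inter _ _ _)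
    rw [lev3_eq' hF] at h1
    exact h1
  have hagree : ∀ X1 X2 X3, X1 ∩ K = m ∩ K → X2 ∩ K = m ∩ K → X3 ∩ K = m ∩ K →
      F' X1 X2 X3 = F X1 X2 X3 := by
    intro X1 X2 X3 h1 h2 h3
    simp only [hF'def]
    rw [rep_eq h1, rep_eq h2, rep_eq h3]
  have hL1 : ∀ X2 X3, X2 ∩ K = m ∩ K → X3 ∩ K = m ∩ K → lev1 F' X2 X3 = lev1 F X2 X3 := by
    intro X2 X3 h2 h3
    refine lfpS_congr (hF'.m1 _ _) (hF.m1 _ _) (fun X => X ∩ K = m ∩ K)
      (fun X hX => hagree _ _ _ hX h2 h3) ?_ ?_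
    · have := hC (lev1 F' X2 X3) X2 X3
      rw [lev1_eq hF'] at this
      exact this
    · have := lev1_aut hF hK h2 h3
      rw [lev3_eq1 hF] at this
      exact this
  have hL2 : ∀ X3, X3 ∩ K = m ∩ K → lev2 F' X3 = lev2 F X3 := by
    intro X3 h3
    refine gfpS_congr (hF'.m2 _) (hF.m2 _) (fun X => X ∩ K = m ∩ K)
      (fun X hX => hL1 _ _ hX h3) ?_ ?_
    · have := hC (lev2 F' X3) (lev2 F' X3) X3
      rw [lev2_eq' hF'] at this
      exact this
    · have := lev2_aut hF hK h3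
      rw [lev3_eq hF] at this
      exact this
  refine lfpS_congr hF'.m3 hF.m3 (fun X => X ∩ K = m ∩ K) (fun X hX => hL2 _ hX) ?_ ?_
  · have := hC (lev3 F') (lev3 F') (lev3 F')
    rw [lev3_eq' hF'] at this
    exact this
  · rfl

/-! ### Complements and ranks -/

theorem compl_lfpS (f : Set α → Set α) : (lfpS f)ᶜ = gfpS fun X => (f Xᶜ)ᶜ := by
  ext a
  constructor
  · intro h
    have h1 : ¬ ∀ X, f X ⊆ X → a ∈ X := h
    push Not at h1
    obtain ⟨X, hX, ha⟩ := h1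
    refine ⟨Xᶜ, ?_, ha⟩
    change Xᶜ ⊆ (f Xᶜᶜ)ᶜ
    rw [compl_compl]
    exact Set.compl_subset_compl.2 hX
  · rintro ⟨X, hX, ha⟩ h
    have h1 : f Xᶜ ⊆ Xᶜ := by
      have h2 : X ⊆ (f Xᶜ)ᶜ := hX
      exact Set.subset_compl_comm.1 h2
    exact h Xᶜ h1 ha

theorem compl_gfpS (f : Set α → Set α) : (gfpS f)ᶜ = lfpS fun X => (f Xᶜ)ᶜ := by
  have h := compl_lfpS (fun X => (f Xᶜ)ᶜ)
  simp only [compl_compl] at h
  rw [← h, compl_compl]

/-- The stages of the iteration towards the least fixpoint. -/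
noncomputable def stage {α : Type u} (f : Set α → Set α) (o : Ordinal.{u}) : Set α :=
  {a | ∃ b : Set.Iio o, a ∈ f (stage f b.1)}
termination_by o
decreasing_by exact b.2

theorem mem_stage {α : Type u} {f : Set α → Set α} {o : Ordinal.{u}} {a : α} :
    a ∈ stage f o ↔ ∃ b, b < o ∧ a ∈ f (stage f b) := by
  rw [stage]
  constructor
  · rintro ⟨b, hb⟩
    exact ⟨b.1, b.2, hb⟩
  · rintro ⟨b, hb, h⟩
    exact ⟨⟨b, hb⟩, h⟩

theorem stage_mono {α : Type u} {f : Set α → Set α} {o o' : Ordinal.{u}} (h : o ≤ o') :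
    stage f o ⊆ stage f o' := by
  intro a ha
  rw [mem_stage] at ha ⊢
  obtain ⟨b, hb, hab⟩ := ha
  exact ⟨b, lt_of_lt_of_le hb h, hab⟩

theorem stage_subset {α : Type u} {f : Set α → Set α} (hf : Mon f) (o : Ordinal.{u}) :
    stage f o ⊆ lfpS f := by
  induction o using WellFoundedLT.induction with
  | ind o ih =>
    intro a ha
    rw [mem_stage] at ha
    obtain ⟨b, hb, hab⟩ := ha
    rw [← lfpS_eq hf]
    exact hf _ _ (ih b hb) hab

/-- The least ordinal `o` such that `a ∈ f (stage o)`. -/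
noncomputable def rk {α : Type u} (f : Set α → Set α) (a : α) : Ordinal.{u} :=
  sInf {o | a ∈ f (stage f o)}

theorem rk_le {α : Type u} {f : Set α → Set α} {a : α} {o : Ordinal.{u}}
    (h : a ∈ f (stage f o)) : rk f a ≤ o := csInf_le' h

theorem lfpS_subset_stage {α : Type u} {f : Set α → Set α} {a : α}
    (ha : a ∈ lfpS f) : ∃ o, a ∈ f (stage f o) := by
  classical
  set s : Ordinal.{u} := iSup (fun a : α => Order.succ (rk f a)) with hs
  have hle : ∀ a, Order.succ (rk f a) ≤ s := fun a => Ordinal.le_iSup _ a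
  have h1 : ∀ o, stage f o ⊆ stage f s := by
    intro o a' ha'
    rw [mem_stage] at ha'
    obtain ⟨b, hb, hab⟩ := ha'
    have hne : {o | a' ∈ f (stage f o)}.Nonempty := ⟨b, hab⟩
    rw [mem_stage]
    refine ⟨rk f a', lt_of_lt_of_le (Order.lt_succ _) (hle a'), ?_⟩
    exact csInf_mem hne
  have h2 : f (stage f s) ⊆ stage f s := by
    intro a' ha'
    apply h1 (Order.succ s)
    rw [mem_stage]
    exact ⟨s, Order.lt_succ s, ha'⟩
  have h3 := lfpS_le h2 ha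
  rw [mem_stage] at h3
  obtain ⟨b, _, hb⟩ := h3
  exact ⟨b, hb⟩

theorem stage_eq {α : Type u} {f : Set α → Set α} (hf : Mon f) (o : Ordinal.{u}) :
    stage f o = {b | b ∈ lfpS f ∧ rk f b < o} := by
  ext a
  constructor
  · intro ha
    refine ⟨stage_subset hf o ha, ?_⟩
    rw [mem_stage] at ha
    obtain ⟨b, hb, hab⟩ := ha
    exact lt_of_le_of_lt (rk_le hab) hb
  · rintro ⟨ha, hr⟩
    rw [mem_stage]
    exact ⟨rk f a, hr, csInf_mem (lfpS_subset_stage ha)⟩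

/-- **Ranks.** The elements of a least fixpoint have ordinal ranks. -/
theorem rk_spec {α : Type u} {f : Set α → Set α} (hf : Mon f) {a : α} (ha : a ∈ lfpS f) :
    a ∈ f {b | b ∈ lfpS f ∧ rk f b < rk f a} := by
  rw [← stage_eq hf]
  exact csInf_mem (lfpS_subset_stage ha)

theorem rk_min {α : Type u} {f : Set α → Set α} (hf : Mon f) {a : α} {o : Ordinal.{u}}
    (h : a ∈ f {b | b ∈ lfpS f ∧ rk f b < o}) : rk f a ≤ o := by
  rw [← stage_eq hf] at h
  exact rk_le h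

end Pool.Agent.X223.MuI
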