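import Pool.Agent.X223.MuI.Det

/-!
# Craig interpolation fails on the third level
-/

namespace Pool.Agent.X223.MuI

universe u

/-! ### Levels of the two formulas -/

theorem level_base {n : ℕ} {m m' : Bool} {a : Fml} (h : Level n m' a) : Level (n + 1) m a := by
  cases m' with
  | true => exact Clo.base m a (Or.inl h)
  | false => exact Clo.base m a (Or.inr h)

theorem level_fixFree (m : Bool) {a : Fml} (h : FixFree a) : ∀ n, Level n m a
  | 0 => h
  | n + 1 => level_base (level_fixFree true h n)

/-- The frame of the two formulas, with a variable for the condition. -/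
def frA : Fml := .and (.lit 4) (.nu 0 (.and (.var 3) (.box (.or (.nlit 4) (.var 0)))))

/-- The frame of the two formulas, with a variable for the condition. -/
def frC : Fml := .or (.nlit 5) (.mu 0 (.or (.var 3) (.dia (.and (.lit 5) (.var 0)))))

theorem level_fA : Level 2 true fA := by
  have e : fA = subst 3 (.and locQ gQ) frA := by
    simp [fA, frA, subst]
  rw [e]
  refine Clo.subst true 3 frA (.and locQ gQ) ?_ ?_ ?_
  · refine Clo.and _ _ _ (level_fixFree true ?_ 2) ?_
    · simp [FixFree]
    apply level_base (n := 1) (m' := false)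
    refine Clo.nu _ _ (level_fixFree false ?_ 1)
    simp [FixFree]
  · refine Clo.and _ _ _ (level_fixFree true ?_ 2) ?_
    · simp [locQ, FixFree]
    · refine Clo.mu _ _ ?_
      apply level_base (n := 1) (m' := false)
      refine Clo.nu _ _ (level_fixFree false ?_ 1)
      simp [FixFree]
  · simp [frA, NoCapture, Free, locQ, gQ]

theorem level_fB : Level 2 false fB := by
  have e : fB = subst 3 (neg (.and locR (.and gR hR))) frC := by
    simp [fB, fC, neg, frC, subst]
  rw [e]
  refine Clo.subst false 3 frC (neg (.and locR (.and gR hR))) ?_ ?_ ?_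
  · refine Clo.or _ _ _ (level_fixFree false ?_ 2) ?_
    · simp [FixFree]
    apply level_base (n := 1) (m' := true)
    refine Clo.mu _ _ (level_fixFree true ?_ 1)
    simp [FixFree]
  · refine Clo.or _ _ _ (level_fixFree false ?_ 2) (Clo.or _ _ _ ?_ ?_)
    · simp [locR, neg, FixFree]
    · refine Clo.nu _ _ ?_
      apply level_base (n := 1) (m' := true)
      refine Clo.mu _ _ (level_fixFree true ?_ 1)
      simp [neg, FixFree]
    · refine Clo.nu _ _ (level_fixFree false ?_ 2)
      simp [neg, FixFree]
  · simp [frC, NoCapture, Free, locR, gR, hR, neg]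

theorem occurs_fA {p : ℕ} (h : Occurs p fA) : p ≤ 4 := by
  simp [fA, locQ, gQ, Occurs] at h
  omega

theorem occurs_fB {p : ℕ} (h : Occurs p fB) : p ≠ 4 := by
  simp [fB, fC, locR, gR, hR, neg, Occurs] at h
  omega

/-! ### The implication is valid -/

theorem valid_aux {W : Type u} (M : Model W) (v : ℕ → Set W) (w : W)
    (hA : w ∈ eval M fA v) (hC : w ∈ eval M fC v) : False := by
  obtain ⟨h4, X, hX, hwX⟩ := hA
  obtain ⟨h5, Y, hY, hwY⟩ := hC
  -- the common part
  set Z : Set W := {u | M.val 4 u ∧ M.val 5 u ∧ u ∈ X ∧ u ∈ Y} with hZ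
  have hwZ : w ∈ Z := ⟨h4, h5, hwX, hwY⟩
  have hXn : ∀ u ∈ X, ∀ u', M.acc u u' → M.val 4 u' → u' ∈ X := by
    intro u hu u' h1 h2
    have h3 := (hX hu).2 u' h1
    rcases h3 with h3 | h3
    · exact absurd h2 h3
    · simpa [eval] using h3
  have hYn : ∀ u ∈ Y, ∀ u', M.acc u u' → M.val 5 u' → u' ∈ Y := by
    intro u hu u' h1 h2
    have h3 := (hY hu).2 u' h1
    rcases h3 with h3 | h3
    · exact absurd h2 h3
    · simpa [eval] using h3
  have hZn : ∀ u ∈ Z, ∃ u' ∈ Z, M.acc u u' := by
    rintro u ⟨_, _, huX, huY⟩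
    have hq : (M.val 3 u ∧ M.val 0 u) ∨ (¬ M.val 3 u ∧
      ((M.val 0 u ∧ ∃ u', M.acc u u' ∧ M.val 4 u') ∨
        (¬ M.val 0 u ∧ ∀ u', M.acc u u' → M.val 4 u'))) := (hX huX).1.1
    have hr : (M.val 3 u ∧ ¬ M.val 0 u) ∨ (¬ M.val 3 u ∧
      ((M.val 0 u ∧ ∀ u', M.acc u u' → M.val 5 u') ∨
        (¬ M.val 0 u ∧ ∃ u', M.acc u u' ∧ M.val 5 u'))) := (hY huY).1.1
    rcases hq with ⟨q3, q0⟩ | ⟨q3, ⟨q0, u', q1, q2⟩ | ⟨q0, q1⟩⟩
    · rcases hr with ⟨_, r0⟩ | ⟨r3, _⟩
      · exact absurd q0 r0
      · exact absurd q3 r3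
    · rcases hr with ⟨r3, _⟩ | ⟨_, ⟨_, r1⟩ | ⟨r0, _⟩⟩
      · exact absurd r3 q3
      · exact ⟨u', ⟨q2, r1 u' q1, hXn u huX u' q1 q2, hYn u huY u' q1 (r1 u' q1)⟩, q1⟩
      · exact absurd q0 r0
    · rcases hr with ⟨r3, _⟩ | ⟨_, ⟨r0, _⟩ | ⟨_, u', r1, r2⟩⟩
      · exact absurd r3 q3
      · exact absurd r0 q0
      · exact ⟨u', ⟨q1 u' r1, r2, hXn u huX u' r1 (q1 u' r1), hYn u huY u' r1 r2⟩, r1⟩
  have hgR : ∀ u ∈ Z, u ∈ eval M gR v := by
    rintro u ⟨_, _, _, huY⟩
    have h1 := (hY huY).1.2.1
    have h2 : eval M gR (Function.update v 0 Y) = eval M gR v := by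
      apply eval_congr
      intro x hx
      simp [gR, Free] at hx
      omega
    rw [h2] at h1
    exact h1
  have hhR : ∀ u ∈ Z, u ∈ eval M hR v := by
    rintro u ⟨_, _, _, huY⟩
    have h1 := (hY huY).1.2.2
    have h2 : eval M hR (Function.update v 0 Y) = eval M hR v := by
      apply eval_congr
      intro x hx
      simp [hR, Free] at hx
    rw [h2] at h1
    exact h1
  have hgQ : ∀ u ∈ Z, u ∈ eval M gQ v := by
    rintro u ⟨_, _, huX, _⟩
    have h1 := (hX huX).1.2
    have h2 : eval M gQ (Function.update v 0 X) = eval M gQ v := by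
      apply eval_congr
      intro x hx
      simp [gQ, Free] at hx
      omega
    rw [h2] at h1
    exact h1
  -- no element of `Z` satisfies `gR`
  have key : eval M gR v ⊆ Zᶜ := by
    apply lfpS_le
    rintro u ⟨N, hN, huN⟩ huZ
    have hN' : ∀ a ∈ N, ∀ a', M.acc a a' → a' ∈ Z → ¬ M.val 2 a' ∧ a' ∈ N := by
      intro a ha a' h1 h2
      have h3 := hN ha a' h1
      rcases h3 with h3 | ⟨_, h3⟩ | ⟨h3, h4⟩
      · exact absurd h2.2.1 h3
      · simp only [eval] at h3
        rw [Function.update_of_ne (by decide), Function.update_self] at h3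
        exact absurd h2 h3
      · refine ⟨h3, ?_⟩
        simp only [eval] at h4
        rw [Function.update_self] at h4
        exact h4
    -- no element of `N ∩ Z` satisfies `gQ`
    have key2 : eval M gQ v ⊆ (N ∩ Z)ᶜ := by
      apply lfpS_le
      rintro u ⟨N2, hN2, huN2⟩ huNZ
      have hN2' : ∀ a ∈ N2, ∀ a', M.acc a a' → a' ∈ N ∩ Z → ¬ M.val 2 a' →
          ¬ M.val 1 a' ∧ a' ∈ N2 := by
        intro a ha a' h1 h2 h2'
        have h3 := hN2 ha a' h1
        rcases h3 with h3 | h3 | ⟨_, h3⟩ | ⟨h3, h4⟩
        · exact absurd h2.2.1 h3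
        · exact absurd h3 h2'
        · simp only [eval] at h3
          rw [Function.update_of_ne (by decide), Function.update_self] at h3
          exact absurd h2 h3
        · refine ⟨h3, ?_⟩
          simp only [eval] at h4
          rw [Function.update_self] at h4
          exact h4
      -- no element of `N2 ∩ N ∩ Z` satisfies `hR`
      have key3 : eval M hR v ⊆ (N2 ∩ (N ∩ Z))ᶜ := by
        apply lfpS_le
        rintro u hu ⟨huN2, huN, huZ⟩
        obtain ⟨u', hu'Z, hacc⟩ := hZn u huZ
        obtain ⟨h2, hN1⟩ := hN' u huN u' hacc hu'Z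
        obtain ⟨h1, hN3⟩ := hN2' u huN2 u' hacc ⟨hN1, hu'Z⟩ h2
        have h3 := hu u' hacc
        rcases h3 with h3 | h3 | h3 | h3
        · exact absurd hu'Z.2.1 h3
        · exact absurd h3 h2
        · exact absurd h3 h1
        · simp only [eval] at h3
          rw [Function.update_self] at h3
          exact h3 ⟨hN3, hN1, hu'Z⟩
      exact key3 (hhR u huNZ.2) ⟨huN2, huNZ⟩
    exact key2 (hgQ u huZ) ⟨huN, huZ⟩
  exact key (hgR w hwZ) hwZ

/-- The implication between the two formulas is valid. -/
theorem validImp : ValidImp.{u} fA fB := by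
  intro W M v w hw
  unfold fB
  rw [eval_neg]
  intro hC
  have h1 : eval M fC (fun x => (v x)ᶜ) = eval M fC v := by
    apply eval_congr
    intro x hx
    simp [fC, locR, gR, hR, Free] at hx
    try omega
  rw [h1] at hC
  exact valid_aux M v w hw hC

/-! ### No interpolant -/

theorem eval_letters {V V' : ℕ → Nd → Prop} (a : Fml) :
    ∀ {v : ℕ → Set Nd}, (∀ p, Occurs p a → V p = V' p) →
      eval (treeM V) a v = eval (treeM V') a v := by
  induction a with
  | tt => intros; rfl
  | ff => intros; rfl
  | lit p =>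
    intro v h
    simp only [eval, treeM]
    rw [h p rfl]
  | nlit p =>
    intro v h
    simp only [eval, treeM]
    rw [h p rfl]
  | var x => intros; rfl
  | and a b iha ihb =>
    intro v h
    simp only [eval]
    rw [iha fun p hp => h p (Or.inl hp), ihb fun p hp => h p (Or.inr hp)]
  | or a b iha ihb =>
    intro v h
    simp only [eval]
    rw [iha fun p hp => h p (Or.inl hp), ihb fun p hp => h p (Or.inr hp)]
  | dia a iha =>
    intro v h
    simp only [eval]
    rw [iha h]
    rfl
  | box a iha =>
    intro v h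
    simp only [eval]
    rw [iha h]
    rfl
  | mu x a iha =>
    intro v h
    simp only [eval]
    congr 1
    funext X
    exact iha h
  | nu x a iha =>
    intro v h
    simp only [eval]
    congr 1
    funext X
    exact iha h

/-- A model in a higher universe. -/
def liftM {W : Type} (M : Model W) : Model (ULift.{u} W) where
  acc a b := M.acc a.down b.down
  val p a := M.val p a.down

theorem eval_lift {W : Type} (M : Model W) (a : Fml) : ∀ v : ℕ → Set W,
    eval (liftM.{u} M) a (fun x => ULift.down ⁻¹' (v x)) = ULift.down ⁻¹' (eval M a v) := by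
  have hup : ∀ (v : ℕ → Set W) (x : ℕ) (X : Set W),
      Function.update (fun x => (ULift.down ⁻¹' (v x) : Set (ULift.{u} W))) x
        (ULift.down ⁻¹' X) = fun y => ULift.down ⁻¹' (Function.update v x X y) := by
    intro v x X
    funext y
    by_cases h : y = x
    · subst h; simp
    · rw [Function.update_of_ne h, Function.update_of_ne h]
  induction a with
  | tt => intro v; rfl
  | ff => intro v; rfl
  | lit p => intro v; rfl
  | nlit p => intro v; rfl
  | var x => intro v; rfl
  | and a b iha ihb => intro v; simp only [eval]; rw [iha, ihb]; rfl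
  | or a b iha ihb => intro v; simp only [eval]; rw [iha, ihb]; rfl
  | dia a iha =>
    intro v
    simp only [eval]
    rw [iha]
    ext w
    constructor
    · rintro ⟨w', h1, h2⟩
      exact ⟨w'.down, h1, h2⟩
    · rintro ⟨w', h1, h2⟩
      exact ⟨⟨w'⟩, h1, h2⟩
  | box a iha =>
    intro v
    simp only [eval]
    rw [iha]
    ext w
    constructor
    · intro h w' h1
      exact h ⟨w'⟩ h1
    · intro h w' h1
      exact h w'.down h1
  | mu x a iha =>
    intro v
    simp only [eval]
    refine (preimage_lfpS (eval_mon M a v x) (eval_mon _ a _ x) ULift.down ?_).symm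
    intro X
    rw [hup, iha]
  | nu x a iha =>
    intro v
    simp only [eval]
    refine (preimage_gfpS (eval_mon M a v x) (eval_mon _ a _ x) ULift.down ?_).symm
    intro X
    rw [hup, iha]

theorem validImp_zero {a b : Fml} (h : ValidImp.{u} a b) : ValidImp.{0} a b := by
  intro W M v w hw
  have h1 := h (ULift.{u} W) (liftM M) (fun x => ULift.down ⁻¹' (v x))
  rw [eval_lift, eval_lift] at h1
  exact h1 (a := ⟨w⟩) hw

/-- **No interpolant on the third level.** -/
theorem no_interpolant (c : Fml) (hc : Level 3 true c)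
    (hl : ∀ p, Occurs p c → Occurs p fA ∧ Occurs p fB) (h1 : ValidImp.{u} fA c)
    (h2 : ValidImp.{u} c fB) : False := by
  obtain ⟨V, hV⟩ := diag (real_sigma3 hc)
  have h1' := validImp_zero h1
  have h2' := validImp_zero h2
  have hl4 : ∀ p, Occurs p c → p ≠ 4 ∧ p ≠ 5 := by
    intro p hp
    have h3 := occurs_fA (hl p hp).1
    have h4 := occurs_fB (hl p hp).2
    omega
  by_cases hr : ([] : Nd) ∈ lev3 (treeOp V)
  · obtain ⟨R, hRm⟩ := exists_markC V (fun _ => ∅) hr
    have h3 := hV.2 hr
    have h4 : eval (treeM V) c (fun _ => ∅) = eval (treeM (addL V 5 R)) c (fun _ => ∅) :=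
      eval_letters c fun p hp => (Function.update_of_ne (hl4 p hp).2 _ _).symm
    change [] ∈ eval (treeM V) c (fun _ => ∅) at h3
    rw [h4] at h3
    have h5 := h2' _ _ _ h3
    unfold fB at h5
    rw [eval_neg] at h5
    apply h5
    have h6 : eval (treeM (addL V 5 R)) fC (fun x => ((fun _ => ∅ : ℕ → Set Nd) x)ᶜ) =
        eval (treeM (addL V 5 R)) fC (fun _ => ∅) := by
      apply eval_congr
      intro x hx
      simp [fC, locR, gR, hR, Free] at hx
      try omega
    rw [h6]
    exact hRm
  · obtain ⟨Q, hQ⟩ := exists_markA V (fun _ => ∅) hr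
    have h3 := h1' _ _ _ hQ
    have h4 : eval (treeM V) c (fun _ => ∅) = eval (treeM (addL V 4 Q)) c (fun _ => ∅) :=
      eval_letters c fun p hp => (Function.update_of_ne (hl4 p hp).1 _ _).symm
    rw [← h4] at h3
    exact hr (hV.1 h3)

/-! ### Duality -/

theorem neg_neg' (a : Fml) : neg (neg a) = a := by
  induction a with
  | tt => rfl
  | ff => rfl
  | lit p => rfl
  | nlit p => rfl
  | var x => rfl
  | and a b iha ihb => simp [neg, iha, ihb]
  | or a b iha ihb => simp [neg, iha, ihb]
  | dia a iha => simp [neg, iha]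
  | box a iha => simp [neg, iha]
  | mu x a iha => simp [neg, iha]
  | nu x a iha => simp [neg, iha]

theorem free_neg (x : ℕ) (a : Fml) : Free x (neg a) ↔ Free x a := by
  induction a with
  | tt => exact Iff.rfl
  | ff => exact Iff.rfl
  | lit p => exact Iff.rfl
  | nlit p => exact Iff.rfl
  | var x => exact Iff.rfl
  | and a b iha ihb => simp only [neg, Free, iha, ihb]
  | or a b iha ihb => simp only [neg, Free, iha, ihb]
  | dia a iha => simp only [neg, Free, iha]
  | box a iha => simp only [neg, Free, iha]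
  | mu x a iha => simp only [neg, Free, iha]
  | nu x a iha => simp only [neg, Free, iha]

theorem occurs_neg (x : ℕ) (a : Fml) : Occurs x (neg a) ↔ Occurs x a := by
  induction a with
  | tt => exact Iff.rfl
  | ff => exact Iff.rfl
  | lit p => exact Iff.rfl
  | nlit p => exact Iff.rfl
  | var x => exact Iff.rfl
  | and a b iha ihb => simp only [neg, Occurs, iha, ihb]
  | or a b iha ihb => simp only [neg, Occurs, iha, ihb]
  | dia a iha => simp only [neg, Occurs, iha]
  | box a iha => simp only [neg, Occurs, iha]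
  | mu x a iha => simp only [neg, Occurs, iha]
  | nu x a iha => simp only [neg, Occurs, iha]

theorem noCapture_neg (x : ℕ) (s a : Fml) (h : NoCapture x s a) :
    NoCapture x (neg s) (neg a) := by
  induction a with
  | tt => trivial
  | ff => trivial
  | lit p => trivial
  | nlit p => trivial
  | var x => trivial
  | and a b iha ihb => exact ⟨iha h.1, ihb h.2⟩
  | or a b iha ihb => exact ⟨iha h.1, ihb h.2⟩
  | dia a iha => exact iha h
  | box a iha => exact iha h
  | mu y a iha =>
    rcases h with h | h | h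
    · exact Or.inl h
    · exact Or.inr (Or.inl (by rw [free_neg]; exact h))
    · exact Or.inr (Or.inr ⟨by rw [free_neg]; exact h.1, iha h.2⟩)
  | nu y a iha =>
    rcases h with h | h | h
    · exact Or.inl h
    · exact Or.inr (Or.inl (by rw [free_neg]; exact h))
    · exact Or.inr (Or.inr ⟨by rw [free_neg]; exact h.1, iha h.2⟩)

theorem neg_subst (x : ℕ) (s a : Fml) : neg (subst x s a) = subst x (neg s) (neg a) := by
  induction a with
  | tt => rfl
  | ff => rfl
  | lit p => rfl
  | nlit p => rfl
  | var y => by_cases h : y = x <;> simp [subst, neg, h]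
  | and a b iha ihb => simp [subst, neg, iha, ihb]
  | or a b iha ihb => simp [subst, neg, iha, ihb]
  | dia a iha => simp [subst, neg, iha]
  | box a iha => simp [subst, neg, iha]
  | mu y a iha => by_cases h : y = x <;> simp [subst, neg, h, iha]
  | nu y a iha => by_cases h : y = x <;> simp [subst, neg, h, iha]

theorem fixFree_neg {a : Fml} (h : FixFree a) : FixFree (neg a) := by
  induction a with
  | tt => trivial
  | ff => trivial
  | lit p => trivial
  | nlit p => trivial
  | var x => trivial
  | and a b iha ihb => exact ⟨iha h.1, ihb h.2⟩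
  | or a b iha ihb => exact ⟨iha h.1, ihb h.2⟩
  | dia a iha => exact iha h
  | box a iha => exact iha h
  | mu y a iha => exact h.elim
  | nu y a iha => exact h.elim

theorem clo_neg {B : Fml → Prop} (hB : ∀ a, B a → B (neg a)) {m : Bool} {a : Fml}
    (h : Clo B m a) : Clo B (!m) (neg a) := by
  induction h with
  | base m a ha => exact Clo.base _ _ (hB a ha)
  | and m a b _ _ iha ihb => exact Clo.or _ _ _ iha ihb
  | or m a b _ _ iha ihb => exact Clo.and _ _ _ iha ihb
  | dia m a _ iha => exact Clo.box _ _ iha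
  | box m a _ iha => exact Clo.dia _ _ iha
  | mu x a _ iha => exact Clo.nu _ _ iha
  | nu x a _ iha => exact Clo.mu _ _ iha
  | subst m x a s _ _ hc iha ihs =>
    rw [neg_subst]
    exact Clo.subst _ _ _ _ iha ihs (noCapture_neg x s a hc)

theorem level_neg : ∀ (n : ℕ) {m : Bool} {a : Fml}, Level n m a → Level n (!m) (neg a)
  | 0, _, _, h => fixFree_neg h
  | n + 1, _, _, h => clo_neg (fun _ ha => ha.elim
      (fun h => Or.inr (level_neg n h)) (fun h => Or.inl (level_neg n h))) h

theorem validImp_neg {a b : Fml} (h : ValidImp.{u} a b) : ValidImp.{u} (neg b) (neg a) := by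
  intro W M v w hw
  rw [eval_neg] at hw ⊢
  intro h1
  exact hw (h W M _ h1)

/-- **No interpolant on the dual level.** -/
theorem no_interpolant' (c : Fml) (hc : Level 3 false c)
    (hl : ∀ p, Occurs p c → Occurs p (neg fB) ∧ Occurs p (neg fA))
    (h1 : ValidImp.{u} (neg fB) c) (h2 : ValidImp.{u} c (neg fA)) : False := by
  refine no_interpolant.{u} (neg c) (level_neg 3 hc) ?_ ?_ ?_
  · intro p hp
    rw [occurs_neg] at hp
    have h3 := hl p hp
    rw [occurs_neg, occurs_neg] at h3
    exact ⟨h3.2, h3.1⟩
  · have h3 := validImp_neg h2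
    rwa [neg_neg'] at h3
  · have h3 := validImp_neg h1
    rwa [neg_neg'] at h3

/-- **Craig interpolation fails for `Π_3`.** -/
theorem not_craig' : ¬ Craig.{u} (Level 3 false) := by
  intro h
  obtain ⟨c, hc, hl, h1, h2⟩ := h (neg fB) (neg fA) (level_base (level_neg 2 level_fB))
    (level_base (level_neg 2 level_fA)) (validImp_neg validImp)
  exact no_interpolant' c hc hl h1 h2

/-- **Craig interpolation fails for `Σ_3`.** -/
theorem not_craig : ¬ Craig.{u} (Level 3 true) := by
  intro h
  obtain ⟨c, hc, hl, h1, h2⟩ := h fA fB (level_base level_fA) (level_base level_fB) validImp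
  exact no_interpolant c hc hl h1 h2

end Pool.Agent.X223.MuI
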