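import Pool.Agent.X223.MuI.Clos

/-!
# All formulas of the third level are given by systems with three priorities
-/

namespace Pool.Agent.X223.MuI

universe u

variable {D D' : Set (Fin 3)}

theorem Real.sub (h : D ⊆ D') {f : (ℕ → Nd → Prop) → (ℕ → Set Nd) → Set Nd} (hf : Real D f) :
    Real D' f := by
  obtain ⟨S, pr, δ, i, h1, h2⟩ := hf
  exact ⟨S, pr, δ, i, fun s => h (h1 s), h2⟩

theorem real_mu2 (h2 : (2 : Fin 3) ∈ D) (x : ℕ)
    {f : (ℕ → Nd → Prop) → (ℕ → Set Nd) → Set Nd} (hf : Real D f) :
    Real D fun V v => lfpS fun Y => f V (Function.update v x Y) := by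
  obtain ⟨S, pr, δ, i, h1, hf2⟩ := hf
  refine ⟨Option S, lpr 2 pr, lδ x δ i, .or none none, ?_, ?_⟩
  · intro s
    cases s with
    | none => exact h2
    | some s => exact h1 s
  · intro V v
    rw [loop2]
    simp only [hf2]

theorem real_mu0 (x : ℕ) {f : (ℕ → Nd → Prop) → (ℕ → Set Nd) → Set Nd} (hf : Real {0} f) :
    Real {0} fun V v => lfpS fun Y => f V (Function.update v x Y) := by
  obtain ⟨S, pr, δ, i, h1, hf2⟩ := hf
  refine ⟨Option S, lpr 0 pr, lδ x δ i, .or none none, ?_, ?_⟩
  · intro s
    cases s with
    | none => exact rfl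
    | some s => exact h1 s
  · intro V v
    rw [loop0 x pr δ i h1]
    simp only [hf2]

theorem real_nu1 (h1 : (1 : Fin 3) ∈ D) (h2 : (2 : Fin 3) ∉ D) (x : ℕ)
    {f : (ℕ → Nd → Prop) → (ℕ → Set Nd) → Set Nd} (hf : Real D f) :
    Real D fun V v => gfpS fun Y => f V (Function.update v x Y) := by
  obtain ⟨S, pr, δ, i, hpr, hf2⟩ := hf
  refine ⟨Option S, lpr 1 pr, lδ x δ i, .or none none, ?_, ?_⟩
  · intro s
    cases s with
    | none => exact h1
    | some s => exact hpr s
  · intro V v
    rw [loop1 x pr δ i (fun s hs => h2 (hs ▸ hpr s))]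
    simp only [hf2]

/-! ### Syntax lemmas -/

theorem eval_congr {W : Type u} (M : Model W) (a : Fml) :
    ∀ {v v' : ℕ → Set W}, (∀ x, Free x a → v x = v' x) → eval M a v = eval M a v' := by
  induction a with
  | tt => intros; rfl
  | ff => intros; rfl
  | lit p => intros; rfl
  | nlit p => intros; rfl
  | var x => intro v v' h; exact h x rfl
  | and a b iha ihb =>
    intro v v' h
    simp only [eval]
    rw [iha fun x hx => h x (Or.inl hx), ihb fun x hx => h x (Or.inr hx)]
  | or a b iha ihb =>
    intro v v' h
    simp only [eval]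
    rw [iha fun x hx => h x (Or.inl hx), ihb fun x hx => h x (Or.inr hx)]
  | dia a iha =>
    intro v v' h
    simp only [eval]
    rw [iha fun x hx => h x hx]
  | box a iha =>
    intro v v' h
    simp only [eval]
    rw [iha fun x hx => h x hx]
  | mu x a iha =>
    intro v v' h
    simp only [eval]
    congr 1
    funext X
    apply iha
    intro y hy
    by_cases hyx : y = x
    · subst hyx
      simp
    · rw [Function.update_of_ne hyx, Function.update_of_ne hyx]
      exact h y ⟨fun h => hyx h.symm, hy⟩
  | nu x a iha =>
    intro v v' h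
    simp only [eval]
    congr 1
    funext X
    apply iha
    intro y hy
    by_cases hyx : y = x
    · subst hyx
      simp
    · rw [Function.update_of_ne hyx, Function.update_of_ne hyx]
      exact h y ⟨fun h => hyx h.symm, hy⟩

theorem subst_of_not_free {x : ℕ} {s : Fml} {a : Fml} (h : ¬ Free x a) : subst x s a = a := by
  induction a with
  | tt => rfl
  | ff => rfl
  | lit p => rfl
  | nlit p => rfl
  | var y =>
    have : ¬ y = x := h
    simp [subst, this]
  | and a b iha ihb =>
    have h1 : ¬ (Free x a ∨ Free x b) := h
    push Not at h1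
    simp [subst, iha h1.1, ihb h1.2]
  | or a b iha ihb =>
    have h1 : ¬ (Free x a ∨ Free x b) := h
    push Not at h1
    simp [subst, iha h1.1, ihb h1.2]
  | dia a iha =>
    have h1 : ¬ Free x a := h
    simp [subst, iha h1]
  | box a iha =>
    have h1 : ¬ Free x a := h
    simp [subst, iha h1]
  | mu y a iha =>
    by_cases hyx : y = x
    · simp [subst, hyx]
    · have h1 : ¬ Free x a := fun h2 => h ⟨hyx, h2⟩
      simp [subst, hyx, iha h1]
  | nu y a iha =>
    by_cases hyx : y = x
    · simp [subst, hyx]
    · have h1 : ¬ Free x a := fun h2 => h ⟨hyx, h2⟩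
      simp [subst, hyx, iha h1]

theorem eval_subst {W : Type u} (M : Model W) (x : ℕ) (s a : Fml) :
    ∀ {v : ℕ → Set W}, NoCapture x s a →
      eval M (subst x s a) v = eval M a (Function.update v x (eval M s v)) := by
  induction a with
  | tt => intros; rfl
  | ff => intros; rfl
  | lit p => intros; rfl
  | nlit p => intros; rfl
  | var y =>
    intro v _
    by_cases h : y = x
    · subst h
      simp [subst, eval]
    · simp [subst, eval, h]
  | and a b iha ihb =>
    intro v h
    simp only [subst, eval]
    rw [iha h.1, ihb h.2]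
  | or a b iha ihb =>
    intro v h
    simp only [subst, eval]
    rw [iha h.1, ihb h.2]
  | dia a iha =>
    intro v h
    simp only [subst, eval]
    rw [iha h]
  | box a iha =>
    intro v h
    simp only [subst, eval]
    rw [iha h]
  | mu y a iha =>
    intro v h
    by_cases hyx : y = x
    · subst hyx
      simp only [subst, if_true, eval]
      congr 1
      funext X
      rw [Function.update_idem]
    · simp only [subst, hyx, if_false, eval]
      congr 1
      funext X
      rw [Function.update_comm (Ne.symm hyx)]
      by_cases hf : Free x a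
      · rcases h with h | h | h
        · exact absurd h hyx
        · exact absurd hf h
        · rw [iha h.2]
          congr 2
          apply eval_congr
          intro z hz
          rw [Function.update_of_ne]
          rintro rfl
          exact h.1 hz
      · rw [subst_of_not_free hf]
        apply eval_congr
        intro z hz
        have hzx : z ≠ x := fun e => hf (e ▸ hz)
        rw [Function.update_of_ne hzx]
  | nu y a iha =>
    intro v h
    by_cases hyx : y = x
    · subst hyx
      simp only [subst, if_true, eval]
      congr 1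
      funext X
      rw [Function.update_idem]
    · simp only [subst, hyx, if_false, eval]
      congr 1
      funext X
      rw [Function.update_comm (Ne.symm hyx)]
      by_cases hf : Free x a
      · rcases h with h | h | h
        · exact absurd h hyx
        · exact absurd hf h
        · rw [iha h.2]
          congr 2
          apply eval_congr
          intro z hz
          rw [Function.update_of_ne]
          rintro rfl
          exact h.1 hz
      · rw [subst_of_not_free hf]
        apply eval_congr
        intro z hz
        have hzx : z ≠ x := fun e => hf (e ▸ hz)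
        rw [Function.update_of_ne hzx]

theorem eval_mono {W : Type u} (M : Model W) (a : Fml) :
    ∀ {v v' : ℕ → Set W}, (∀ x, v x ⊆ v' x) → eval M a v ⊆ eval M a v' := by
  induction a with
  | tt => intro v v' _; exact Set.Subset.rfl
  | ff => intro v v' _; exact Set.Subset.rfl
  | lit p => intro v v' _; exact Set.Subset.rfl
  | nlit p => intro v v' _; exact Set.Subset.rfl
  | var x => intro v v' h; exact h x
  | and a b iha ihb => intro v v' h; exact Set.inter_subset_inter (iha h) (ihb h)
  | or a b iha ihb => intro v v' h; exact Set.union_subset_union (iha h) (ihb h)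
  | dia a iha => intro v v' h w ⟨w', h1, h2⟩; exact ⟨w', h1, iha h h2⟩
  | box a iha => intro v v' h w hw w' h1; exact iha h (hw w' h1)
  | mu x a iha =>
    intro v v' h
    refine lfpS_mono fun X => iha fun y => ?_
    by_cases hy : y = x
    · subst hy; simp
    · rw [Function.update_of_ne hy, Function.update_of_ne hy]; exact h y
  | nu x a iha =>
    intro v v' h
    refine gfpS_mono fun X => iha fun y => ?_
    by_cases hy : y = x
    · subst hy; simp
    · rw [Function.update_of_ne hy, Function.update_of_ne hy]; exact h y

theorem eval_mon {W : Type u} (M : Model W) (a : Fml) (v : ℕ → Set W) (x : ℕ) :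
    Mon fun X => eval M a (Function.update v x X) := by
  intro X Y h
  refine eval_mono M a fun y => ?_
  by_cases hy : y = x
  · subst hy; simpa using h
  · rw [Function.update_of_ne hy, Function.update_of_ne hy]

/-! ### Levels -/

/-- The operator of a formula on the binary tree. -/
def ev (a : Fml) : (ℕ → Nd → Prop) → (ℕ → Set Nd) → Set Nd := fun V v => eval (treeM V) a v

theorem real_dia' {d : Fin 3} (hd : d ∈ D) {a : Fml} (h : Real D (ev a)) :
    Real D (ev (.dia a)) := by
  have h2 := real_dia hd h
  have e : ev (.dia a) = fun V v => {w | ∃ b : Bool, b :: w ∈ ev a V v} := by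
    funext V v
    ext w
    constructor
    · rintro ⟨w', ⟨b, rfl⟩, h⟩
      exact ⟨b, h⟩
    · rintro ⟨b, h⟩
      exact ⟨b :: w, ⟨b, rfl⟩, h⟩
  rw [e]
  exact h2

theorem real_box' {d : Fin 3} (hd : d ∈ D) {a : Fml} (h : Real D (ev a)) :
    Real D (ev (.box a)) := by
  have h2 := real_box hd h
  have e : ev (.box a) = fun V v => {w | ∀ b : Bool, b :: w ∈ ev a V v} := by
    funext V v
    ext w
    constructor
    · intro h b
      exact h (b :: w) ⟨b, rfl⟩
    · rintro h w' ⟨b, rfl⟩
      exact h b
  rw [e]
  exact h2

theorem real_fixFree {d : Fin 3} (hd : d ∈ D) (a : Fml) (h : FixFree a) : Real D (ev a) := by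
  induction a with
  | tt => exact real_leaf D .tt _ fun _ _ _ => Iff.rfl
  | ff => exact real_leaf D .ff _ fun _ _ _ => Iff.rfl
  | lit p => exact real_leaf D (.lit p) _ fun _ _ _ => Iff.rfl
  | nlit p => exact real_leaf D (.nlit p) _ fun _ _ _ => Iff.rfl
  | var x => exact real_leaf D (.var x) _ fun _ _ _ => Iff.rfl
  | and a b iha ihb => exact real_and hd (iha h.1) (ihb h.2)
  | or a b iha ihb => exact real_or hd (iha h.1) (ihb h.2)
  | dia a iha => exact real_dia' hd (iha h)
  | box a iha => exact real_box' hd (iha h)
  | mu x a => exact h.elim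
  | nu x a => exact h.elim

theorem real_clo {B : Fml → Prop} {d : Fin 3} (hd : d ∈ D) (hB : ∀ a, B a → Real D (ev a))
    {m : Bool}
    (hmu : m = true → ∀ (x : ℕ) (f : (ℕ → Nd → Prop) → (ℕ → Set Nd) → Set Nd), Real D f →
      Real D fun V v => lfpS fun Y => f V (Function.update v x Y))
    (hnu : m = false → ∀ (x : ℕ) (f : (ℕ → Nd → Prop) → (ℕ → Set Nd) → Set Nd), Real D f →
      Real D fun V v => gfpS fun Y => f V (Function.update v x Y))
    {a : Fml} (h : Clo B m a) : Real D (ev a) := by
  induction h with
  | base m a ha => exact hB a ha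
  | and m a b _ _ iha ihb => exact real_and hd (iha hmu hnu) (ihb hmu hnu)
  | or m a b _ _ iha ihb => exact real_or hd (iha hmu hnu) (ihb hmu hnu)
  | dia m a _ iha => exact real_dia' hd (iha hmu hnu)
  | box m a _ iha => exact real_box' hd (iha hmu hnu)
  | mu x a _ iha => exact hmu rfl x _ (iha hmu hnu)
  | nu x a _ iha => exact hnu rfl x _ (iha hmu hnu)
  | subst m x a s _ _ hc iha ihs =>
    have h2 := real_subst x (iha hmu hnu) (ihs hmu hnu)
    have e : ev (subst x s a) = fun V v => ev a V (Function.update v x (ev s V v)) := by
      funext V v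
      exact eval_subst (treeM V) x s a hc
    rw [e]
    exact h2

theorem real_sigma1_0 {a : Fml} (h : Level 1 true a) : Real {0} (ev a) := by
  refine real_clo (D := {0}) (d := 0) (Set.mem_singleton 0) ?_ (fun _ x f hf => real_mu0 x hf)
    (fun h => by cases h) h
  rintro a (ha | ha) <;> exact real_fixFree (d := 0) (Set.mem_singleton 0) a ha

theorem real_sigma1_2 {a : Fml} (h : Level 1 true a) : Real {2} (ev a) := by
  refine real_clo (D := {2}) (d := 2) (Set.mem_singleton 2) ?_
    (fun _ x f hf => real_mu2 (Set.mem_singleton 2) x hf) (fun h => by cases h) h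
  rintro a (ha | ha) <;> exact real_fixFree (d := 2) (Set.mem_singleton 2) a ha

theorem real_pi1 {a : Fml} (h : Level 1 false a) : Real {1} (ev a) := by
  refine real_clo (D := {1}) (d := 1) (Set.mem_singleton 1) ?_ (fun h => by cases h)
    (fun _ x f hf => real_nu1 (Set.mem_singleton 1) (by
      intro h
      exact absurd h (by decide)) x hf) h
  rintro a (ha | ha) <;> exact real_fixFree (d := 1) (Set.mem_singleton 1) a ha

theorem real_sigma2 {a : Fml} (h : Level 2 true a) : Real Set.univ (ev a) := by
  refine real_clo (D := Set.univ) (d := 2) (Set.mem_univ 2) ?_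
    (fun _ x f hf => real_mu2 (Set.mem_univ 2) x hf) (fun h => by cases h) h
  rintro a (ha | ha)
  · exact (real_sigma1_2 ha).sub (Set.subset_univ _)
  · exact (real_pi1 ha).sub (Set.subset_univ _)

theorem real_pi2 {a : Fml} (h : Level 2 false a) : Real {0, 1} (ev a) := by
  refine real_clo (D := {0, 1}) (d := 0) (Or.inl rfl) ?_ (fun h => by cases h)
    (fun _ x f hf => real_nu1 (Or.inr rfl) (by
      rintro (h | h)
      · exact absurd h (by decide)
      · exact absurd h (by decide)) x hf) h
  rintro a (ha | ha)
  · exact (real_sigma1_0 ha).sub (by intro x hx; exact Or.inl hx)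
  · exact (real_pi1 ha).sub (by intro x hx; exact Or.inr hx)

theorem real_sigma3 {a : Fml} (h : Level 3 true a) : Real Set.univ (ev a) := by
  refine real_clo (D := Set.univ) (d := 2) (Set.mem_univ 2) ?_
    (fun _ x f hf => real_mu2 (Set.mem_univ 2) x hf) (fun h => by cases h) h
  rintro a (ha | ha)
  · exact real_sigma2 ha
  · exact (real_pi2 ha).sub (Set.subset_univ _)

end Pool.Agent.X223.MuI
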