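import Pool.Agent.X223.MuI.Fix

/-!
# Formulas of the third level as systems with three priorities, on the binary tree
-/

namespace Pool.Agent.X223.MuI

/-- Nodes of the binary tree. -/
abbrev Nd := List Bool

/-- The binary tree with a labelling, as a Kripke model. -/
def treeM (V : ℕ → Nd → Prop) : Model Nd where
  acc u w := ∃ b, w = b :: u
  val := V

/-- What a state of a system may look like. -/
inductive Node (S : Type) : Type
  | tt : Node S
  | ff : Node S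
  | lit (p : ℕ) : Node S
  | nlit (p : ℕ) : Node S
  | var (x : ℕ) : Node S
  | and (s s' : S) : Node S
  | or (s s' : S) : Node S
  | dia (s : S) : Node S
  | box (s : S) : Node S

/-- The truth of a node at a point of the tree, when the truth of the states is given by `Z`. -/
def nev {S : Type} (V : ℕ → Nd → Prop) (v : ℕ → Set Nd) (Z : Set (S × Nd)) (w : Nd) :
    Node S → Prop
  | .tt => True
  | .ff => False
  | .lit p => V p w
  | .nlit p => ¬ V p w
  | .var x => w ∈ v x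
  | .and s s' => (s, w) ∈ Z ∧ (s', w) ∈ Z
  | .or s s' => (s, w) ∈ Z ∨ (s', w) ∈ Z
  | .dia s => ∃ b : Bool, (s, b :: w) ∈ Z
  | .box s => ∀ b : Bool, (s, b :: w) ∈ Z

theorem nev_mono {S : Type} {V : ℕ → Nd → Prop} {v v' : ℕ → Set Nd} {Z Z' : Set (S × Nd)}
    {w : Nd} (hv : ∀ x, v x ⊆ v' x) (hZ : Z ⊆ Z') {n : Node S} (h : nev V v Z w n) :
    nev V v' Z' w n := by
  cases n with
  | tt => exact h
  | ff => exact h
  | lit p => exact h
  | nlit p => exact h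
  | var x => exact hv x h
  | and s s' => exact ⟨hZ h.1, hZ h.2⟩
  | or s s' => exact h.imp (fun h => hZ h) (fun h => hZ h)
  | dia s => exact h.imp fun b hb => hZ hb
  | box s => exact fun b => hZ (h b)

/-- Renaming of states, and replacement of variables by nodes. -/
def Node.bind {S S' : Type} (f : S → S') (g : ℕ → Node S') : Node S → Node S'
  | .tt => .tt
  | .ff => .ff
  | .lit p => .lit p
  | .nlit p => .nlit p
  | .var x => g x
  | .and s s' => .and (f s) (f s')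
  | .or s s' => .or (f s) (f s')
  | .dia s => .dia (f s)
  | .box s => .box (f s)

theorem nev_bind {S S' : Type} (f : S → S') (g : ℕ → Node S') (V : ℕ → Nd → Prop)
    (v v' : ℕ → Set Nd) (Z : Set (S' × Nd)) (w : Nd) (n : Node S)
    (h : ∀ x, nev V v Z w (g x) ↔ w ∈ v' x) :
    nev V v Z w (n.bind f g) ↔ nev V v' {q : S × Nd | (f q.1, q.2) ∈ Z} w n := by
  cases n with
  | var x => exact h x
  | _ => exact Iff.rfl

/-- The set of those elements which lie in the set belonging to their priority. -/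
def rd {α : Type*} (pr : α → Fin 3) (X1 X2 X3 : Set α) : Set α :=
  {q | (pr q = 0 ∧ q ∈ X1) ∨ (pr q = 1 ∧ q ∈ X2) ∨ (pr q = 2 ∧ q ∈ X3)}

theorem rd_mono {α : Type*} (pr : α → Fin 3) {X1 X2 X3 Y1 Y2 Y3 : Set α} (h1 : X1 ⊆ Y1)
    (h2 : X2 ⊆ Y2) (h3 : X3 ⊆ Y3) : rd pr X1 X2 X3 ⊆ rd pr Y1 Y2 Y3 := by
  intro q hq
  rcases hq with ⟨h, hq⟩ | ⟨h, hq⟩ | ⟨h, hq⟩
  · exact Or.inl ⟨h, h1 hq⟩
  · exact Or.inr (Or.inl ⟨h, h2 hq⟩)
  · exact Or.inr (Or.inr ⟨h, h3 hq⟩)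

theorem rd_self {α : Type*} (pr : α → Fin 3) (X : Set α) : rd pr X X X = X := by
  ext q
  have h : pr q = 0 ∨ pr q = 1 ∨ pr q = 2 := by
    generalize pr q = k
    revert k
    decide
  constructor
  · rintro (⟨_, hq⟩ | ⟨_, hq⟩ | ⟨_, hq⟩) <;> exact hq
  · intro hq
    rcases h with h | h | h
    · exact Or.inl ⟨h, hq⟩
    · exact Or.inr (Or.inl ⟨h, hq⟩)
    · exact Or.inr (Or.inr ⟨h, hq⟩)

theorem preimage_rd {α β : Type*} (f : α → β) (pr : β → Fin 3) (X1 X2 X3 : Set β) :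
    f ⁻¹' (rd pr X1 X2 X3) = rd (pr ∘ f) (f ⁻¹' X1) (f ⁻¹' X2) (f ⁻¹' X3) := rfl

/-- The operator of a system. -/
def op {S : Type} (pr : S → Fin 3) (δ : S → Node S) (V : ℕ → Nd → Prop) (v : ℕ → Set Nd)
    (X1 X2 X3 : Set (S × Nd)) : Set (S × Nd) :=
  {q | nev V v (rd (fun q : S × Nd => pr q.1) X1 X2 X3) q.2 (δ q.1)}

theorem op_mono {S : Type} (pr : S → Fin 3) (δ : S → Node S) (V : ℕ → Nd → Prop)
    (v : ℕ → Set Nd) : Mon3 (op pr δ V v) :=
  fun _ _ _ _ _ _ h1 h2 h3 _ hq => nev_mono (fun _ => Set.Subset.rfl) (rd_mono _ h1 h2 h3) hq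

/-- The solution of a system. -/
def sol {S : Type} (pr : S → Fin 3) (δ : S → Node S) (V : ℕ → Nd → Prop) (v : ℕ → Set Nd) :
    Set (S × Nd) :=
  lev3 (op pr δ V v)

/-- The truth set of the initial node. -/
def out {S : Type} (pr : S → Fin 3) (δ : S → Node S) (i : Node S) (V : ℕ → Nd → Prop)
    (v : ℕ → Set Nd) : Set Nd :=
  {w | nev V v (sol pr δ V v) w i}

theorem sol_iff {S : Type} (pr : S → Fin 3) (δ : S → Node S) (V : ℕ → Nd → Prop)
    (v : ℕ → Set Nd) (q : S × Nd) :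
    q ∈ sol pr δ V v ↔ nev V v (sol pr δ V v) q.2 (δ q.1) := by
  have h2 : op pr δ V v (sol pr δ V v) (sol pr δ V v) (sol pr δ V v) = sol pr δ V v :=
    lev3_eq' (op_mono pr δ V v)
  have h3 : q ∈ op pr δ V v (sol pr δ V v) (sol pr δ V v) (sol pr δ V v) ↔
      nev V v (rd (fun q : S × Nd => pr q.1) (sol pr δ V v) (sol pr δ V v) (sol pr δ V v))
        q.2 (δ q.1) := Iff.rfl
  rw [h2, rd_self] at h3
  exact h3

/-- The operator on valuations is given by a system with priorities in `D`. -/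
def Real (D : Set (Fin 3)) (f : (ℕ → Nd → Prop) → (ℕ → Set Nd) → Set Nd) : Prop :=
  ∃ (S : Type) (pr : S → Fin 3) (δ : S → Node S) (i : Node S), (∀ s, pr s ∈ D) ∧
    ∀ V v, f V v = out pr δ i V v

/-! ### Substitution -/

section comp

variable {SA : Type} {SB : ℕ → Type} (prA : SA → Fin 3) (δA : SA → Node SA) (iA : Node SA)
  (prB : ∀ x, SB x → Fin 3) (δB : ∀ x, SB x → Node (SB x)) (iB : ∀ x, Node (SB x))

/-- The inclusion of the states of `B x`. -/
def inB (SA : Type) {SB : ℕ → Type} (x : ℕ) (s : SB x) : SA ⊕ (Σ x, SB x) := Sum.inr ⟨x, s⟩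

/-- The inclusion of the states of `A`. -/
def inA {SA : Type} (SB : ℕ → Type) (s : SA) : SA ⊕ (Σ x, SB x) := Sum.inl s

/-- The initial nodes of the `B x` in the composition. -/
def cB (SA : Type) (x : ℕ) : Node (SA ⊕ (Σ x, SB x)) := (iB x).bind (inB SA x) Node.var

/-- Priorities of the composition. -/
def cpr : SA ⊕ (Σ x, SB x) → Fin 3 := Sum.elim prA fun p => prB p.1 p.2

/-- Transitions of the composition. -/
def cδ : SA ⊕ (Σ x, SB x) → Node (SA ⊕ (Σ x, SB x)) :=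
  Sum.elim (fun s => (δA s).bind (inA SB) (cB iB SA))
    (fun p => (δB p.1 p.2).bind (inB SA p.1) Node.var)

/-- The solution of the composition. -/
def csol (V : ℕ → Nd → Prop) (v : ℕ → Set Nd) : Set ((SA ⊕ (Σ x, SB x)) × Nd) :=
  sol (cpr prA prB) (cδ δA δB iB) V v

theorem csol_inB (V : ℕ → Nd → Prop) (v : ℕ → Set Nd) (x : ℕ) :
    {q : SB x × Nd | (inB SA x q.1, q.2) ∈ csol prA δA prB δB iB V v} =
      sol (prB x) (δB x) V v := by
  refine preimage_lev3 (op_mono _ _ V v) (op_mono _ _ V v)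
    (fun q : SB x × Nd => (inB SA x q.1, q.2)) ?_
  intro X1 X2 X3
  ext q
  exact nev_bind (inB SA x) Node.var V v v
    (rd (fun q : (SA ⊕ (Σ x, SB x)) × Nd => cpr prA prB q.1) X1 X2 X3) q.2 (δB x q.1)
    (fun _ => Iff.rfl)

theorem csol_iB (V : ℕ → Nd → Prop) (v : ℕ → Set Nd) (x : ℕ) (w : Nd) :
    nev V v (csol prA δA prB δB iB V v) w (cB iB SA x) ↔
      w ∈ out (prB x) (δB x) (iB x) V v := by
  unfold cB
  rw [nev_bind (inB SA x) Node.var V v v _ w (iB x) (fun _ => Iff.rfl), csol_inB]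
  exact Iff.rfl

/-- The states of the `B x`. -/
def KB (SA : Type) (SB : ℕ → Type) : Set ((SA ⊕ (Σ x, SB x)) × Nd) :=
  {q | ∃ p, q.1 = Sum.inr p}

theorem mem_of_inter_eq {Z Z' : Set ((SA ⊕ (Σ x, SB x)) × Nd)}
    (h : Z ∩ KB SA SB = Z' ∩ KB SA SB) (p : Σ x, SB x) (w : Nd) :
    ((Sum.inr p : SA ⊕ (Σ x, SB x)), w) ∈ Z ↔ ((Sum.inr p : SA ⊕ (Σ x, SB x)), w) ∈ Z' := by
  have hk : ((Sum.inr p : SA ⊕ (Σ x, SB x)), w) ∈ KB SA SB := ⟨p, rfl⟩
  constructor
  · intro hz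
    have : ((Sum.inr p : SA ⊕ (Σ x, SB x)), w) ∈ Z ∩ KB SA SB := ⟨hz, hk⟩
    rw [h] at this
    exact this.1
  · intro hz
    have : ((Sum.inr p : SA ⊕ (Σ x, SB x)), w) ∈ Z' ∩ KB SA SB := ⟨hz, hk⟩
    rw [← h] at this
    exact this.1

theorem comp_aut (V : ℕ → Nd → Prop) (v : ℕ → Set Nd) :
    Aut (KB SA SB) (op (cpr prA prB) (cδ δA δB iB) V v) := by
  intro X1 X2 X3 Y1 Y2 Y3 h1 h2 h3
  have key : ∀ (p : Σ x, SB x) (w : Nd),
      ((Sum.inr p : SA ⊕ (Σ x, SB x)), w) ∈ op (cpr prA prB) (cδ δA δB iB) V v X1 X2 X3 ↔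
        ((Sum.inr p : SA ⊕ (Σ x, SB x)), w) ∈
          op (cpr prA prB) (cδ δA δB iB) V v Y1 Y2 Y3 := by
    intro p w
    have e : ∀ Z1 Z2 Z3 : Set ((SA ⊕ (Σ x, SB x)) × Nd),
        ((Sum.inr p : SA ⊕ (Σ x, SB x)), w) ∈ op (cpr prA prB) (cδ δA δB iB) V v Z1 Z2 Z3 ↔
          nev V v {q : SB p.1 × Nd | (inB SA p.1 q.1, q.2) ∈
            rd (fun q : (SA ⊕ (Σ x, SB x)) × Nd => cpr prA prB q.1) Z1 Z2 Z3} w
            (δB p.1 p.2) := by
      intro Z1 Z2 Z3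
      exact nev_bind (inB SA p.1) Node.var V v v
        (rd (fun q : (SA ⊕ (Σ x, SB x)) × Nd => cpr prA prB q.1) Z1 Z2 Z3) w (δB p.1 p.2)
        (fun _ => Iff.rfl)
    rw [e, e]
    have e3 : {q : SB p.1 × Nd | (inB SA p.1 q.1, q.2) ∈
            rd (fun q : (SA ⊕ (Σ x, SB x)) × Nd => cpr prA prB q.1) X1 X2 X3} =
        {q : SB p.1 × Nd | (inB SA p.1 q.1, q.2) ∈
            rd (fun q : (SA ⊕ (Σ x, SB x)) × Nd => cpr prA prB q.1) Y1 Y2 Y3} := by
      ext q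
      have g1 := mem_of_inter_eq h1 ⟨p.1, q.1⟩ q.2
      have g2 := mem_of_inter_eq h2 ⟨p.1, q.1⟩ q.2
      have g3 := mem_of_inter_eq h3 ⟨p.1, q.1⟩ q.2
      change (_ ∧ ((Sum.inr ⟨p.1, q.1⟩ : SA ⊕ (Σ x, SB x)), q.2) ∈ X1) ∨
          (_ ∧ ((Sum.inr ⟨p.1, q.1⟩ : SA ⊕ (Σ x, SB x)), q.2) ∈ X2) ∨
          (_ ∧ ((Sum.inr ⟨p.1, q.1⟩ : SA ⊕ (Σ x, SB x)), q.2) ∈ X3) ↔
        (_ ∧ ((Sum.inr ⟨p.1, q.1⟩ : SA ⊕ (Σ x, SB x)), q.2) ∈ Y1) ∨
          (_ ∧ ((Sum.inr ⟨p.1, q.1⟩ : SA ⊕ (Σ x, SB x)), q.2) ∈ Y2) ∨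
          (_ ∧ ((Sum.inr ⟨p.1, q.1⟩ : SA ⊕ (Σ x, SB x)), q.2) ∈ Y3)
      rw [g1, g2, g3]
    rw [e3]
  ext ⟨s, w⟩
  constructor
  · rintro ⟨h, ⟨p, hp⟩⟩
    change s = Sum.inr p at hp
    subst hp
    exact ⟨(key p w).1 h, ⟨p, rfl⟩⟩
  · rintro ⟨h, ⟨p, hp⟩⟩
    change s = Sum.inr p at hp
    subst hp
    exact ⟨(key p w).2 h, ⟨p, rfl⟩⟩

theorem mem_rep_inr (m X : Set ((SA ⊕ (Σ x, SB x)) × Nd)) (p : Σ x, SB x) (w : Nd) :
    ((Sum.inr p : SA ⊕ (Σ x, SB x)), w) ∈ rep (KB SA SB) m X ↔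
      ((Sum.inr p : SA ⊕ (Σ x, SB x)), w) ∈ m := by
  have hk : ((Sum.inr p : SA ⊕ (Σ x, SB x)), w) ∈ KB SA SB := ⟨p, rfl⟩
  constructor
  · rintro (h | h)
    · exact absurd hk h.2
    · exact h.1
  · intro h
    exact Or.inr ⟨h, hk⟩

theorem mem_rep_inl (m X : Set ((SA ⊕ (Σ x, SB x)) × Nd)) (s : SA) (w : Nd) :
    ((Sum.inl s : SA ⊕ (Σ x, SB x)), w) ∈ rep (KB SA SB) m X ↔
      ((Sum.inl s : SA ⊕ (Σ x, SB x)), w) ∈ X := by
  have hk : ((Sum.inl s : SA ⊕ (Σ x, SB x)), w) ∉ KB SA SB := by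
    rintro ⟨p, hp⟩
    cases hp
  constructor
  · rintro (h | h)
    · exact h.1
    · exact absurd h.2 hk
  · intro h
    exact Or.inl ⟨h, hk⟩

theorem csol_inA (V : ℕ → Nd → Prop) (v : ℕ → Set Nd) :
    {q : SA × Nd | (inA SB q.1, q.2) ∈ csol prA δA prB δB iB V v} =
      sol prA δA V (fun x => out (prB x) (δB x) (iB x) V v) := by
  set F := op (cpr prA prB) (cδ δA δB iB) V v with hF
  have hFm : Mon3 F := op_mono _ _ V v
  set m := csol prA δA prB δB iB V v with hm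
  have hrep := lev3_rep hFm (comp_aut prA δA prB δB iB V v)
  change lev3 (fun X1 X2 X3 => F (rep (KB SA SB) m X1) (rep (KB SA SB) m X2)
    (rep (KB SA SB) m X3)) = m at hrep
  have hF'm : Mon3 (fun X1 X2 X3 => F (rep (KB SA SB) m X1) (rep (KB SA SB) m X2)
      (rep (KB SA SB) m X3)) :=
    fun _ _ _ _ _ _ h1 h2 h3 => hFm _ _ _ _ _ _ (rep_mono h1) (rep_mono h2) (rep_mono h3)
  set v' : ℕ → Set Nd := fun x => out (prB x) (δB x) (iB x) V v with hv'
  have h := preimage_lev3 hF'm (op_mono prA δA V v')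
    (fun q : SA × Nd => (inA SB q.1, q.2)) ?_
  · rw [hrep] at h
    exact h
  intro X1 X2 X3
  ext q
  set Z := rd (fun q : (SA ⊕ (Σ x, SB x)) × Nd => cpr prA prB q.1) (rep (KB SA SB) m X1)
    (rep (KB SA SB) m X2) (rep (KB SA SB) m X3) with hZ
  have hZm : ∀ (p : Σ x, SB x) (w : Nd), ((Sum.inr p : SA ⊕ (Σ x, SB x)), w) ∈ Z ↔
      ((Sum.inr p : SA ⊕ (Σ x, SB x)), w) ∈ m := by
    intro p w
    have h0 : ((Sum.inr p : SA ⊕ (Σ x, SB x)), w) ∈ Z ↔
        ((Sum.inr p : SA ⊕ (Σ x, SB x)), w) ∈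
          rd (fun q : (SA ⊕ (Σ x, SB x)) × Nd => cpr prA prB q.1) m m m := by
      change (_ ∧ _ ∈ rep (KB SA SB) m X1) ∨ (_ ∧ _ ∈ rep (KB SA SB) m X2) ∨
        (_ ∧ _ ∈ rep (KB SA SB) m X3) ↔ _
      rw [mem_rep_inr, mem_rep_inr, mem_rep_inr]
      exact Iff.rfl
    rw [h0, rd_self]
  have hbind : nev V v Z q.2 ((δA q.1).bind (inA SB) (cB iB SA)) ↔
      nev V v' {q : SA × Nd | (inA SB q.1, q.2) ∈ Z} q.2 (δA q.1) := by
    refine nev_bind (inA SB) (cB iB SA) V v v' Z q.2 (δA q.1) ?_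
    intro x
    have h1 := csol_iB prA δA prB δB iB V v x q.2
    have h2 : nev V v Z q.2 (cB iB SA x) ↔ nev V v m q.2 (cB iB SA x) := by
      unfold cB
      rw [nev_bind (inB SA x) Node.var V v v Z q.2 (iB x) (fun _ => Iff.rfl),
        nev_bind (inB SA x) Node.var V v v m q.2 (iB x) (fun _ => Iff.rfl)]
      have h5 : {q : SB x × Nd | (inB SA x q.1, q.2) ∈ Z} =
          {q : SB x × Nd | (inB SA x q.1, q.2) ∈ m} := by
        ext q'
        exact hZm ⟨x, q'.1⟩ q'.2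
      rw [h5]
    rw [h2]
    exact h1
  have h4 : {q : SA × Nd | (inA SB q.1, q.2) ∈ Z} =
      rd (fun q : SA × Nd => prA q.1)
        ((fun q : SA × Nd => (inA SB q.1, q.2)) ⁻¹' X1)
        ((fun q : SA × Nd => (inA SB q.1, q.2)) ⁻¹' X2)
        ((fun q : SA × Nd => (inA SB q.1, q.2)) ⁻¹' X3) := by
    ext q'
    change (_ ∧ _ ∈ rep (KB SA SB) m X1) ∨ (_ ∧ _ ∈ rep (KB SA SB) m X2) ∨
        (_ ∧ _ ∈ rep (KB SA SB) m X3) ↔ _
    unfold inA
    rw [mem_rep_inl, mem_rep_inl, mem_rep_inl]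
    exact Iff.rfl
  rw [h4] at hbind
  exact hbind

theorem comp_out (V : ℕ → Nd → Prop) (v : ℕ → Set Nd) :
    out (cpr prA prB) (cδ δA δB iB) (iA.bind (inA SB) (cB iB SA)) V v =
      out prA δA iA V (fun x => out (prB x) (δB x) (iB x) V v) := by
  ext w
  change nev V v (csol prA δA prB δB iB V v) w (iA.bind (inA SB) (cB iB SA)) ↔ _
  rw [nev_bind (inA SB) (cB iB SA) V v (fun x => out (prB x) (δB x) (iB x) V v) _ w iA
      (fun x => csol_iB prA δA prB δB iB V v x w), csol_inA]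
  exact Iff.rfl

end comp

theorem Real.comp {D : Set (Fin 3)} {f : (ℕ → Nd → Prop) → (ℕ → Set Nd) → Set Nd}
    {g : ℕ → (ℕ → Nd → Prop) → (ℕ → Set Nd) → Set Nd} (hf : Real D f) (hg : ∀ x, Real D (g x)) :
    Real D fun V v => f V fun x => g x V v := by
  obtain ⟨SA, prA, δA, iA, hA, hfA⟩ := hf
  choose SB prB δB iB hB hgB using hg
  refine ⟨_, cpr prA prB, cδ δA δB iB, iA.bind (inA SB) (cB iB SA), ?_, ?_⟩
  · rintro (s | ⟨x, s⟩)
    · exact hA s
    · exact hB x s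
  · intro V v
    rw [comp_out]
    beta_reduce
    rw [hfA]
    congr 1
    funext x
    rw [hgB]

/-! ### Simple systems -/

theorem real_leaf (D : Set (Fin 3)) (n : Node Empty)
    (f : (ℕ → Nd → Prop) → (ℕ → Set Nd) → Set Nd)
    (hf : ∀ V v w, w ∈ f V v ↔ nev V v ∅ w n) : Real D f := by
  refine ⟨Empty, Empty.elim, Empty.elim, n, fun s => s.elim, fun V v => ?_⟩
  ext w
  rw [hf]
  have : sol (Empty.elim : Empty → Fin 3) (Empty.elim : Empty → Node Empty) V v = ∅ := by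
    ext ⟨s, _⟩
    exact s.elim
  change _ ↔ nev V v (sol (Empty.elim : Empty → Fin 3) (Empty.elim : Empty → Node Empty) V v) w n
  rw [this]

theorem two_sol (d : Fin 3) (V : ℕ → Nd → Prop) (v : ℕ → Set Nd) :
    sol (fun _ : Bool => d) (fun b => Node.var (cond b 1 0)) V v =
      {q : Bool × Nd | q.2 ∈ v (cond q.1 1 0)} := by
  ext q
  rw [sol_iff]
  exact Iff.rfl

variable {D : Set (Fin 3)}

theorem real_two {d : Fin 3} (hd : d ∈ D) {f g : (ℕ → Nd → Prop) → (ℕ → Set Nd) → Set Nd}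
    (hf : Real D f) (hg : Real D g) (n : Node Bool)
    (h : (ℕ → Nd → Prop) → (ℕ → Set Nd) → Set Nd)
    (hh : ∀ V v w, w ∈ h V v ↔ nev V (fun x => if x = 0 then f V v else g V v)
      {q : Bool × Nd | q.2 ∈ cond q.1 (g V v) (f V v)} w n) :
    Real D h := by
  have h1 : Real D (out (fun _ : Bool => d) (fun b => Node.var (cond b 1 0)) n) :=
    ⟨Bool, fun _ => d, fun b => Node.var (cond b 1 0), n, fun _ => hd, fun _ _ => rfl⟩
  have h2 := h1.comp (g := fun x => if x = 0 then f else g) (fun x => by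
    by_cases h : x = 0
    · simp only [h, if_true]
      exact hf
    · simp only [h, if_false]
      exact hg)
  convert h2 using 3 with V v
  ext w
  rw [hh]
  change _ ↔ nev _ _ (sol _ _ _ _) _ _
  rw [two_sol]
  have e1 : (fun x => if x = 0 then f V v else g V v) =
      (fun x => (if x = 0 then f else g) V v) := by
    funext x
    split_ifs <;> rfl
  have e2 : {q : Bool × Nd | q.2 ∈ cond q.1 (g V v) (f V v)} =
      {q : Bool × Nd | q.2 ∈ (if (cond q.1 1 0 : ℕ) = 0 then f else g) V v} := by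
    ext ⟨b, w'⟩
    cases b
    · exact Iff.rfl
    · exact Iff.rfl
  rw [e1, e2]

theorem real_and {d : Fin 3} (hd : d ∈ D) {f g : (ℕ → Nd → Prop) → (ℕ → Set Nd) → Set Nd}
    (hf : Real D f) (hg : Real D g) : Real D fun V v => f V v ∩ g V v :=
  real_two hd hf hg (.and false true) _ fun _ _ _ => Iff.rfl

theorem real_or {d : Fin 3} (hd : d ∈ D) {f g : (ℕ → Nd → Prop) → (ℕ → Set Nd) → Set Nd}
    (hf : Real D f) (hg : Real D g) : Real D fun V v => f V v ∪ g V v :=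
  real_two hd hf hg (.or false true) _ fun _ _ _ => Iff.rfl

theorem real_dia {d : Fin 3} (hd : d ∈ D) {f : (ℕ → Nd → Prop) → (ℕ → Set Nd) → Set Nd}
    (hf : Real D f) : Real D fun V v => {w | ∃ b : Bool, b :: w ∈ f V v} :=
  real_two hd hf hf (.dia false) _ fun _ _ _ => Iff.rfl

theorem real_box {d : Fin 3} (hd : d ∈ D) {f : (ℕ → Nd → Prop) → (ℕ → Set Nd) → Set Nd}
    (hf : Real D f) : Real D fun V v => {w | ∀ b : Bool, b :: w ∈ f V v} :=
  real_two hd hf hf (.box false) _ fun _ _ _ => Iff.rfl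

theorem real_var (x : ℕ) : Real D fun _ v => v x :=
  real_leaf D (.var x) _ fun _ _ _ => Iff.rfl

theorem real_subst (x : ℕ) {f g : (ℕ → Nd → Prop) → (ℕ → Set Nd) → Set Nd}
    (hf : Real D f) (hg : Real D g) :
    Real D fun V v => f V (Function.update v x (g V v)) := by
  have h := hf.comp (g := fun y => if y = x then g else fun _ v => v y) (fun y => by
    by_cases h : y = x
    · simp only [h, if_true]
      exact hg
    · simp only [h, if_false]
      exact real_var y)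
  have e : (fun (V : ℕ → Nd → Prop) v => f V (Function.update v x (g V v))) =
      fun V v => f V fun y => (if y = x then g else fun _ v => v y) V v := by
    funext V v
    have e2 : Function.update v x (g V v) =
        fun y => (if y = x then g else fun _ v => v y) V v := by
      funext y
      by_cases h : y = x
      · subst h
        simp
      · simp only [h, if_false]
        rw [Function.update_of_ne h]
    rw [e2]
  rw [e]
  exact h

end Pool.Agent.X223.MuI
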